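import Pool.Agent.Q299.BA.Scal

set_option autoImplicit false

/-!
# The one-dimensional integral inequality
-/

namespace Pool.Agent.Q299.BA

open Real MeasureTheory Set Filter Topology

/-- the integrated form of the scalar inequality -/
theorem bellman {p M a : ℝ} (hp : 2 ≤ p) (hM : 0 < M) (ha : 0 ≤ a) {x y D D' : ℝ → ℝ}
    (hx : Continuous x) (hy : Continuous y) (hx0 : ∀ r, 0 ≤ x r) (hy0 : ∀ r, 0 ≤ y r)
    (hD : ∀ r, 0 < r → HasDerivAt D (D' r) r)
    (hD' : ∀ r, 0 < r → r * D' r ≤ M * (x r ^ 2 - y r ^ 2) - (4 + (p - 2) * M) / p * D r)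
    (hD0 : ∀ r, 0 < r → 0 ≤ D r) (hDb : ∀ R : ℝ, ∃ K : ℝ, ∀ r, 0 < r → r ≤ R → D r ≤ K)
    (hxy : ∀ r, 0 < r → y r ≤ x r + a * √(D r)) {R : ℝ} (hR : 0 ≤ R) :
    ∫ r in (0 : ℝ)..R, r * y r ^ p ≤ (1 + a) ^ (p - 2) * ∫ r in (0 : ℝ)..R, r * x r ^ p := by
  have hp0 : 0 < p := by linarith
  have hb : 0 < (1 + a) ^ (p - 2) := Real.rpow_pos_of_pos (by linarith) _
  have hcx : Continuous fun r : ℝ => r * x r ^ p :=
    continuous_id.mul (hx.rpow_const fun r => Or.inr hp0.le)
  have hcy : Continuous fun r : ℝ => r * y r ^ p :=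
    continuous_id.mul (hy.rpow_const fun r => Or.inr hp0.le)
  set Φ : ℝ → ℝ := fun r => r ^ 2 * D r ^ (p / 2) / M with hΦ
  set Φ' : ℝ → ℝ := fun r => (2 * r * D r ^ (p / 2) + r ^ 2 * (D' r * (p / 2) * D r ^ (p / 2 - 1))) / M
    with hΦ'
  have hΦd : ∀ r, 0 < r → HasDerivAt Φ (Φ' r) r := by
    intro r hr
    have e1 : HasDerivAt (fun r : ℝ => r ^ 2) (2 * r) r := by
      simpa using hasDerivAt_pow 2 r
    have e2 : HasDerivAt (fun r : ℝ => D r ^ (p / 2)) (D' r * (p / 2) * D r ^ (p / 2 - 1)) r :=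
      (hD r hr).rpow_const (Or.inr (by linarith))
    exact (e1.fun_mul e2).div_const M
  set Ψ : ℝ → ℝ := fun r => (1 + a) ^ (p - 2) * ((∫ s in (0 : ℝ)..r, s * x s ^ p) - Φ r) -
    ∫ s in (0 : ℝ)..r, s * y s ^ p with hΨ
  have hΨd : ∀ r, 0 < r → HasDerivAt Ψ ((1 + a) ^ (p - 2) * (r * x r ^ p - Φ' r) - r * y r ^ p) r := by
    intro r hr
    have e1 : HasDerivAt (fun r => ∫ s in (0 : ℝ)..r, s * x s ^ p) (r * x r ^ p) r :=
      intervalIntegral.integral_hasDerivAt_right (hcx.intervalIntegrable _ _)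
        (hcx.stronglyMeasurableAtFilter _ _) hcx.continuousAt
    have e2 : HasDerivAt (fun r => ∫ s in (0 : ℝ)..r, s * y s ^ p) (r * y r ^ p) r :=
      intervalIntegral.integral_hasDerivAt_right (hcy.intervalIntegrable _ _)
        (hcy.stronglyMeasurableAtFilter _ _) hcy.continuousAt
    exact ((e1.fun_sub (hΦd r hr)).const_mul _).fun_sub e2
  have hge : ∀ r, 0 < r → 0 ≤ (1 + a) ^ (p - 2) * (r * x r ^ p - Φ' r) - r * y r ^ p := by
    intro r hr
    have hDr := hD0 r hr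
    set d := √(D r) with hd
    have hd0 : 0 ≤ d := Real.sqrt_nonneg _
    have hdp : ∀ e : ℝ, d ^ e = D r ^ (e / 2) := by
      intro e
      rw [hd, Real.sqrt_eq_rpow, ← Real.rpow_mul hDr]
      congr 1
      ring
    have e1 := scal hp ha (hx0 r) (hy0 r) hd0 (hxy r hr)
    rw [hdp p, hdp (p - 2)] at e1
    have e0 : (p - 2) / 2 = p / 2 - 1 := by ring
    rw [show D r ^ ((p - 2) / 2) = D r ^ (p / 2 - 1) by rw [e0]] at e1
    have hpow : D r ^ (p / 2 - 1) * D r = D r ^ (p / 2) := by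
      rcases eq_or_lt_of_le hDr with h0 | h0
      · rw [← h0, mul_zero, Real.zero_rpow (by linarith)]
      · rw [← Real.rpow_add_one h0.ne']
        congr 1
        ring
    have hE : 0 ≤ D r ^ (p / 2 - 1) := Real.rpow_nonneg hDr _
    have e2 : Φ' r ≤ r * (-((p - 2) / 2) * D r ^ (p / 2) + p / 2 * (D r ^ (p / 2 - 1) * (x r ^ 2 - y r ^ 2))) := by
      have e3 : r * D' r * (D r ^ (p / 2 - 1) * (p / 2 * r)) ≤
          (M * (x r ^ 2 - y r ^ 2) - (4 + (p - 2) * M) / p * D r) * (D r ^ (p / 2 - 1) * (p / 2 * r)) :=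
        mul_le_mul_of_nonneg_right (hD' r hr) (by positivity)
      rw [hΦ']
      change (2 * r * D r ^ (p / 2) + r ^ 2 * (D' r * (p / 2) * D r ^ (p / 2 - 1))) / M ≤ _
      rw [div_le_iff₀ hM]
      have e4 : (M * (x r ^ 2 - y r ^ 2) - (4 + (p - 2) * M) / p * D r) * (D r ^ (p / 2 - 1) * (p / 2 * r)) =
          M * r * (p / 2 * (D r ^ (p / 2 - 1) * (x r ^ 2 - y r ^ 2))) -
            (4 + (p - 2) * M) / 2 * r * (D r ^ (p / 2 - 1) * D r) := by
        field_simp
      rw [e4, hpow] at e3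
      nlinarith
    have e5 : (1 + a) ^ (p - 2) * Φ' r ≤ (1 + a) ^ (p - 2) * (r * (-((p - 2) / 2) * D r ^ (p / 2) +
        p / 2 * (D r ^ (p / 2 - 1) * (x r ^ 2 - y r ^ 2)))) := mul_le_mul_of_nonneg_left e2 hb.le
    have e6 := mul_le_mul_of_nonneg_left e1 hr.le
    nlinarith
  have hcont : ContinuousOn Ψ (Icc 0 R) := by
    intro r hr
    rcases eq_or_lt_of_le hr.1 with h0 | h0
    · rw [← h0]
      obtain ⟨K, hK⟩ := hDb 1
      have e1 : Continuous fun r => ∫ s in (0 : ℝ)..r, s * x s ^ p :=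
        intervalIntegral.continuous_primitive (fun a b => hcx.intervalIntegrable _ _) 0
      have e2 : Continuous fun r => ∫ s in (0 : ℝ)..r, s * y s ^ p :=
        intervalIntegral.continuous_primitive (fun a b => hcy.intervalIntegrable _ _) 0
      have e3 : ContinuousWithinAt Φ (Icc 0 R) 0 := by
        have h1 : Φ 0 = 0 := by simp [hΦ]
        rw [ContinuousWithinAt, h1]
        have h2 : Tendsto (fun r : ℝ => r ^ 2 * (max K 0) ^ (p / 2) / M) (𝓝[Icc 0 R] 0) (𝓝 0) := by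
          have h3 : Continuous fun r : ℝ => r ^ 2 * (max K 0) ^ (p / 2) / M := by fun_prop
          have h4 := h3.tendsto 0
          simp only [ne_eq, OfNat.ofNat_ne_zero, not_false_eq_true, zero_pow, zero_mul, zero_div] at h4
          exact h4.mono_left nhdsWithin_le_nhds
        refine squeeze_zero' ?_ ?_ h2
        · filter_upwards [self_mem_nhdsWithin] with r hr
          rcases eq_or_lt_of_le hr.1 with h | h
          · rw [← h]; simp [hΦ]
          · have := hD0 r h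
            rw [hΦ]; positivity
        · have h5 : ∀ᶠ r : ℝ in 𝓝[Icc 0 R] 0, r < 1 :=
            nhdsWithin_le_nhds (Iio_mem_nhds one_pos)
          filter_upwards [self_mem_nhdsWithin, h5] with r hr hr1
          rcases eq_or_lt_of_le hr.1 with h | h
          · rw [← h]; simp [hΦ]
          · have h6 := hD0 r h
            have h7 : D r ^ (p / 2) ≤ (max K 0) ^ (p / 2) :=
              Real.rpow_le_rpow h6 ((hK r h hr1.le).trans (le_max_left _ _)) (by linarith)
            change r ^ 2 * D r ^ (p / 2) / M ≤ _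
            gcongr
      exact (((e1.continuousWithinAt).sub e3).const_smul ((1 + a) ^ (p - 2))).sub e2.continuousWithinAt
    · exact (hΨd r h0).continuousAt.continuousWithinAt
  have hmono : MonotoneOn Ψ (Icc 0 R) := by
    refine monotoneOn_of_deriv_nonneg (convex_Icc 0 R) hcont ?_ ?_
    · intro r hr
      rw [interior_Icc] at hr
      exact (hΨd r hr.1).differentiableAt.differentiableWithinAt
    · intro r hr
      rw [interior_Icc] at hr
      rw [(hΨd r hr.1).deriv]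
      exact hge r hr.1
  have h1 := hmono (left_mem_Icc.2 hR) (right_mem_Icc.2 hR) hR
  have h2 : Ψ 0 = 0 := by simp [hΨ, hΦ]
  have h3 : 0 ≤ Φ R := by
    rcases eq_or_lt_of_le hR with h | h
    · rw [← h]; simp [hΦ]
    · have := hD0 R h
      rw [hΦ]; positivity
  rw [h2] at h1
  have h4 : 0 ≤ (1 + a) ^ (p - 2) * ((∫ s in (0 : ℝ)..R, s * x s ^ p) - Φ R) -
    ∫ s in (0 : ℝ)..R, s * y s ^ p := h1
  have h5 : 0 ≤ (1 + a) ^ (p - 2) * Φ R := by positivity
  nlinarith

end Pool.Agent.Q299.BA
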