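import Pool.Agent.Q299.BA.Bell

set_option autoImplicit false

/-!
# The energy inequality along the chain of powers
-/

namespace Pool.Agent.Q299.BA

open Real MeasureTheory Set Filter Topology Finset

/-- the constants `2 (m + 2 j + 1)` -/
def cc (m : ℝ) (j : ℕ) : ℝ := 2 * (m + 2 * j + 1)

/-- the products `∏ (c_i - 4 μ) / (c_i + 4 μ)` -/
noncomputable def rho (m μ : ℝ) (j : ℕ) : ℝ := ∏ i ∈ range j, (cc m i - 4 * μ) / (cc m i + 4 * μ)

/-- the weights -/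
noncomputable def aa (m μ : ℝ) (j : ℕ) : ℝ := rho m μ j / (cc m j + 4 * μ)

/-- the constant of the Cauchy-Schwarz inequality -/
noncomputable def BB (m μ : ℝ) (n : ℕ) : ℝ := ∑ j ∈ range n, (aa m μ j)⁻¹

section

variable {m μ : ℝ}

theorem cc_ge (j : ℕ) : 2 * (m + 1) ≤ cc m j := by
  unfold cc
  have : (0 : ℝ) ≤ (j : ℝ) := Nat.cast_nonneg j
  linarith

theorem cc_sub_pos (hμ : 4 * μ < 2 * (m + 1)) (j : ℕ) : 0 < cc m j - 4 * μ := by
  have := cc_ge (m := m) j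
  linarith

theorem cc_add_pos (hμ0 : 0 ≤ μ) (hμ : 4 * μ < 2 * (m + 1)) (j : ℕ) : 0 < cc m j + 4 * μ := by
  have := cc_sub_pos hμ j
  linarith

theorem rho_pos (hμ0 : 0 ≤ μ) (hμ : 4 * μ < 2 * (m + 1)) (j : ℕ) : 0 < rho m μ j :=
  Finset.prod_pos fun i _ => div_pos (cc_sub_pos hμ i) (cc_add_pos hμ0 hμ i)

theorem rho_le_one (hμ0 : 0 ≤ μ) (hμ : 4 * μ < 2 * (m + 1)) (j : ℕ) : rho m μ j ≤ 1 :=
  Finset.prod_le_one (fun i _ => (div_pos (cc_sub_pos hμ i) (cc_add_pos hμ0 hμ i)).le) fun i _ => by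
    rw [div_le_one (cc_add_pos hμ0 hμ i)]
    linarith

theorem rho_succ (j : ℕ) : rho m μ (j + 1) = rho m μ j * ((cc m j - 4 * μ) / (cc m j + 4 * μ)) :=
  Finset.prod_range_succ _ _

theorem aa_pos (hμ0 : 0 ≤ μ) (hμ : 4 * μ < 2 * (m + 1)) (j : ℕ) : 0 < aa m μ j :=
  div_pos (rho_pos hμ0 hμ j) (cc_add_pos hμ0 hμ j)

/-- the hypotheses on the chain of functions -/
structure Ch (m : ℝ) (n : ℕ) (g W : ℕ → ℝ → ℂ) : Prop where
  cont : ∀ j, Continuous (g j)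
  der : ∀ j < n, ∀ r : ℝ, 0 < r → HasDerivAt (fun r => g j r - g (j + 1) r) (W j r) r
  eq : ∀ j < n, ∀ r : ℝ, 0 < r →
    r • W j r = cc m j • g j r - (m + 2 * j + 2) • (g j r - g (j + 1) r)

variable {n : ℕ} {g W : ℕ → ℝ → ℂ}

/-- the energy density -/
noncomputable def ZZ (m μ : ℝ) (n : ℕ) (g : ℕ → ℝ → ℂ) (r : ℝ) : ℝ :=
  ∑ j ∈ range n, aa m μ j * ‖g j r - g (j + 1) r‖ ^ 2

/-- its derivative -/
noncomputable def ZZ' (m μ : ℝ) (n : ℕ) (g W : ℕ → ℝ → ℂ) (r : ℝ) : ℝ :=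
  ∑ j ∈ range n, aa m μ j * (2 * inner ℝ (g j r - g (j + 1) r) (W j r))

theorem ZZ_nonneg (hμ0 : 0 ≤ μ) (hμ : 4 * μ < 2 * (m + 1)) (r : ℝ) : 0 ≤ ZZ m μ n g r :=
  Finset.sum_nonneg fun j _ => mul_nonneg (aa_pos hμ0 hμ j).le (sq_nonneg _)

theorem ZZ_cont (h : Ch m n g W) : Continuous (ZZ m μ n g) := by
  unfold ZZ
  refine continuous_finsetSum _ fun j _ => ?_
  exact continuous_const.mul (((h.cont j).sub (h.cont (j + 1))).norm.pow 2)

theorem ZZ_der (h : Ch m n g W) {r : ℝ} (hr : 0 < r) : HasDerivAt (ZZ m μ n g) (ZZ' m μ n g W r) r := by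
  unfold ZZ ZZ'
  refine HasDerivAt.fun_sum fun j hj => ?_
  exact ((h.der j (Finset.mem_range.1 hj) r hr).norm_sq).const_mul (aa m μ j)

theorem step_ineq (hμ0 : 0 ≤ μ) (h : Ch m n g W) {j : ℕ} (hj : j < n) {r : ℝ} (hr : 0 < r) :
    r * (2 * inner ℝ (g j r - g (j + 1) r) (W j r)) + (2 + 2 * μ) * ‖g j r - g (j + 1) r‖ ^ 2 ≤
      (cc m j + 4 * μ) * ‖g j r‖ ^ 2 - (cc m j - 4 * μ) * ‖g (j + 1) r‖ ^ 2 := by
  set w := g j r - g (j + 1) r with hw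
  have h1 : r * inner ℝ w (W j r) = cc m j * inner ℝ w (g j r) - (m + 2 * j + 2) * ‖w‖ ^ 2 := by
    rw [← real_inner_smul_right, h.eq j hj r hr, inner_sub_right, real_inner_smul_right,
      real_inner_smul_right, ← hw, real_inner_self_eq_norm_sq]
  have h2 : ‖g (j + 1) r‖ ^ 2 = ‖g j r‖ ^ 2 - 2 * inner ℝ w (g j r) + ‖w‖ ^ 2 := by
    have h3 : g (j + 1) r = g j r - w := by rw [hw]; abel
    rw [h3, norm_sub_sq_real, real_inner_comm]
  have h4 : ‖w‖ ^ 2 ≤ 2 * ‖g j r‖ ^ 2 + 2 * ‖g (j + 1) r‖ ^ 2 := by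
    have h5 : ‖w‖ ≤ ‖g j r‖ + ‖g (j + 1) r‖ := norm_sub_le _ _
    have h6 := norm_nonneg w
    nlinarith [sq_nonneg (‖g j r‖ - ‖g (j + 1) r‖)]
  have hc : cc m j = 2 * (m + 2 * j + 1) := rfl
  have h5 : r * (2 * inner ℝ w (W j r)) = cc m j * (‖g j r‖ ^ 2 - ‖g (j + 1) r‖ ^ 2) - 2 * ‖w‖ ^ 2 := by
    rw [h2]
    have : r * (2 * inner ℝ w (W j r)) = 2 * (r * inner ℝ w (W j r)) := by ring
    rw [this, h1, hc]
    ring
  rw [h5]
  nlinarith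

/-- **The energy inequality.** -/
theorem ZZ_ineq (hμ0 : 0 ≤ μ) (hμ : 4 * μ < 2 * (m + 1)) (h : Ch m n g W) {r : ℝ} (hr : 0 < r) :
    r * ZZ' m μ n g W r ≤ ‖g 0 r‖ ^ 2 - rho m μ n * ‖g n r‖ ^ 2 - (2 + 2 * μ) * ZZ m μ n g r := by
  have h1 : r * ZZ' m μ n g W r + (2 + 2 * μ) * ZZ m μ n g r ≤
      ∑ j ∈ range n, (rho m μ j * ‖g j r‖ ^ 2 - rho m μ (j + 1) * ‖g (j + 1) r‖ ^ 2) := by
    unfold ZZ' ZZ
    rw [Finset.mul_sum, Finset.mul_sum, ← Finset.sum_add_distrib]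
    refine Finset.sum_le_sum fun j hj => ?_
    have h2 := step_ineq hμ0 h (Finset.mem_range.1 hj) hr
    have ha := aa_pos hμ0 hμ j
    have h3 := mul_le_mul_of_nonneg_left h2 ha.le
    have hc := cc_add_pos hμ0 hμ j
    have h4 : aa m μ j * (cc m j + 4 * μ) = rho m μ j := by
      unfold aa; field_simp
    have h5 : aa m μ j * (cc m j - 4 * μ) = rho m μ (j + 1) := by
      rw [rho_succ]; unfold aa; ring
    calc _ = aa m μ j * (r * (2 * inner ℝ (g j r - g (j + 1) r) (W j r)) +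
          (2 + 2 * μ) * ‖g j r - g (j + 1) r‖ ^ 2) := by ring
      _ ≤ _ := h3
      _ = (aa m μ j * (cc m j + 4 * μ)) * ‖g j r‖ ^ 2 - (aa m μ j * (cc m j - 4 * μ)) * ‖g (j + 1) r‖ ^ 2 := by
        ring
      _ = _ := by rw [h4, h5]
  have h2 := Finset.sum_range_sub' (fun j => rho m μ j * ‖g j r‖ ^ 2) n
  rw [h2] at h1
  have h3 : rho m μ 0 = 1 := by simp [rho]
  rw [h3, one_mul] at h1
  linarith

/-- Cauchy-Schwarz -/
theorem cs (hμ0 : 0 ≤ μ) (hμ : 4 * μ < 2 * (m + 1)) (r : ℝ) :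
    ‖g 0 r - g n r‖ ^ 2 ≤ BB m μ n * ZZ m μ n g r := by
  have h1 : g 0 r - g n r = ∑ j ∈ range n, (g j r - g (j + 1) r) :=
    (Finset.sum_range_sub' (fun j => g j r) n).symm
  have h2 : ‖g 0 r - g n r‖ ≤ ∑ j ∈ range n, ‖g j r - g (j + 1) r‖ := by
    rw [h1]; exact norm_sum_le _ _
  have h3 : (∑ j ∈ range n, ‖g j r - g (j + 1) r‖) ^ 2 ≤ BB m μ n * ZZ m μ n g r := by
    unfold BB ZZ
    refine Finset.sum_sq_le_sum_mul_sum_of_sq_le_mul _ (fun j _ => (inv_pos.2 (aa_pos hμ0 hμ j)).le)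
      (fun j _ => mul_nonneg (aa_pos hμ0 hμ j).le (sq_nonneg _)) fun j _ => le_of_eq ?_
    have := (aa_pos hμ0 hμ j).ne'
    field_simp
  exact (pow_le_pow_left₀ (norm_nonneg _) h2 2).trans h3

theorem BB_nonneg (hμ0 : 0 ≤ μ) (hμ : 4 * μ < 2 * (m + 1)) (n : ℕ) : 0 ≤ BB m μ n :=
  Finset.sum_nonneg fun j _ => (inv_pos.2 (aa_pos hμ0 hμ j)).le

/-- **The integral inequality for a chain.** -/
theorem chain_int {p M : ℝ} (hp : 2 ≤ p) (hM : 2 ≤ M) (hμe : μ = (1 - 2 / p) * (M - 2) / 2)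
    (hμ : 4 * μ < 2 * (m + 1)) (h : Ch m n g W) {R : ℝ} (hR : 0 ≤ R) :
    ∫ r in (0 : ℝ)..R, r * (√(rho m μ n) * ‖g n r‖) ^ p ≤
      (1 + √(BB m μ n / M)) ^ (p - 2) * ∫ r in (0 : ℝ)..R, r * ‖g 0 r‖ ^ p := by
  have hp0 : 0 < p := by linarith
  have hM0 : 0 < M := by linarith
  have h2p : 0 ≤ 1 - 2 / p := by
    rw [sub_nonneg, div_le_one hp0]; exact hp
  have hμ0 : 0 ≤ μ := by
    rw [hμe]
    have : 0 ≤ M - 2 := by linarith
    positivity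
  have hρ := rho_pos hμ0 hμ n
  have hρ1 := rho_le_one hμ0 hμ n
  have hB := BB_nonneg hμ0 hμ n
  refine bellman (M := M) (x := fun r => ‖g 0 r‖) (y := fun r => √(rho m μ n) * ‖g n r‖)
    (D := fun r => M * ZZ m μ n g r) (D' := fun r => M * ZZ' m μ n g W r) hp hM0
    (Real.sqrt_nonneg _) (h.cont 0).norm (continuous_const.mul (h.cont n).norm)
    (fun r => norm_nonneg _) (fun r => mul_nonneg (Real.sqrt_nonneg _) (norm_nonneg _))
    (fun r hr => (ZZ_der h hr).const_mul M) ?_ (fun r _ => mul_nonneg hM0.le (ZZ_nonneg hμ0 hμ r)) ?_ ?_ hR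
  · intro r hr
    have h1 := ZZ_ineq hμ0 hμ h hr
    have h2 := mul_le_mul_of_nonneg_left h1 hM0.le
    have h3 : (4 + (p - 2) * M) / p = 2 + 2 * μ := by
      rw [hμe]; field_simp; ring
    change r * (M * ZZ' m μ n g W r) ≤ M * (‖g 0 r‖ ^ 2 - (√(rho m μ n) * ‖g n r‖) ^ 2) -
      (4 + (p - 2) * M) / p * (M * ZZ m μ n g r)
    rw [mul_pow, Real.sq_sqrt hρ.le, h3]
    linarith
  · intro R
    have h1 : ContinuousOn (fun r => M * ZZ m μ n g r) (Icc 0 R) :=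
      (continuous_const.mul (ZZ_cont h)).continuousOn
    obtain ⟨K, hK⟩ := (isCompact_Icc.bddAbove_image h1)
    exact ⟨K, fun r h0 h1 => hK ⟨r, ⟨h0.le, h1⟩, rfl⟩⟩
  · intro r hr
    have h1 : √(rho m μ n) ≤ 1 := Real.sqrt_le_one.2 hρ1
    have h2 : ‖g n r‖ ≤ ‖g 0 r‖ + ‖g 0 r - g n r‖ := by
      have := norm_sub_le (g 0 r) (g 0 r - g n r)
      rwa [sub_sub_cancel] at this
    have h3 : ‖g 0 r - g n r‖ ≤ √(BB m μ n / M) * √(M * ZZ m μ n g r) := by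
      rw [← Real.sqrt_mul (by positivity)]
      refine Real.le_sqrt_of_sq_le ?_
      have h4 : BB m μ n / M * (M * ZZ m μ n g r) = BB m μ n * ZZ m μ n g r := by field_simp
      rw [h4]
      exact cs hμ0 hμ r
    calc √(rho m μ n) * ‖g n r‖ ≤ 1 * ‖g n r‖ := mul_le_mul_of_nonneg_right h1 (norm_nonneg _)
      _ = ‖g n r‖ := one_mul _
      _ ≤ _ := by linarith

/-- **The pointwise energy bound** (`μ = 0`). -/
theorem chain_pt (hm : 0 ≤ m) (h : Ch m n g W) {r : ℝ} (hr : 0 < r) :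
    r ^ 2 * ‖g 0 r - g n r‖ ^ 2 ≤ BB m 0 n * ∫ s in (0 : ℝ)..r, s * (‖g 0 s‖ ^ 2 - ‖g n s‖ ^ 2) := by
  have hμ : 4 * (0 : ℝ) < 2 * (m + 1) := by linarith
  have hc : Continuous fun s : ℝ => s * (‖g 0 s‖ ^ 2 - ‖g n s‖ ^ 2) :=
    continuous_id.mul (((h.cont 0).norm.pow 2).sub ((h.cont n).norm.pow 2))
  set Ψ : ℝ → ℝ := fun r => (∫ s in (0 : ℝ)..r, s * (‖g 0 s‖ ^ 2 - ‖g n s‖ ^ 2)) - r ^ 2 * ZZ m 0 n g r
    with hΨ
  have hΨd : ∀ r, 0 < r → HasDerivAt Ψ (r * (‖g 0 r‖ ^ 2 - ‖g n r‖ ^ 2) -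
      (2 * r * ZZ m 0 n g r + r ^ 2 * ZZ' m 0 n g W r)) r := by
    intro r hr
    have e1 : HasDerivAt (fun r => ∫ s in (0 : ℝ)..r, s * (‖g 0 s‖ ^ 2 - ‖g n s‖ ^ 2))
        (r * (‖g 0 r‖ ^ 2 - ‖g n r‖ ^ 2)) r :=
      intervalIntegral.integral_hasDerivAt_right (hc.intervalIntegrable _ _)
        (hc.stronglyMeasurableAtFilter _ _) hc.continuousAt
    have e2 : HasDerivAt (fun r : ℝ => r ^ 2) (2 * r) r := by simpa using hasDerivAt_pow 2 r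
    exact e1.fun_sub (e2.fun_mul (ZZ_der h hr))
  have hcont : Continuous Ψ :=
    (intervalIntegral.continuous_primitive (fun a b => hc.intervalIntegrable _ _) 0).sub
      ((continuous_pow 2).mul (ZZ_cont h))
  have hmono : MonotoneOn Ψ (Icc 0 r) := by
    refine monotoneOn_of_deriv_nonneg (convex_Icc 0 r) hcont.continuousOn ?_ ?_
    · intro s hs
      rw [interior_Icc] at hs
      exact (hΨd s hs.1).differentiableAt.differentiableWithinAt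
    · intro s hs
      rw [interior_Icc] at hs
      rw [(hΨd s hs.1).deriv]
      have h1 := ZZ_ineq le_rfl hμ h hs.1
      have h2 : rho m 0 n = 1 := by
        unfold rho
        refine Finset.prod_eq_one fun i _ => ?_
        have := cc_sub_pos hμ i
        rw [mul_zero, sub_zero, add_zero, div_self]
        linarith
      rw [h2] at h1
      have h3 := mul_le_mul_of_nonneg_left h1 hs.1.le
      nlinarith
  have h1 := hmono (left_mem_Icc.2 hr.le) (right_mem_Icc.2 hr.le) hr.le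
  have h2 : Ψ 0 = 0 := by simp [hΨ]
  rw [h2] at h1
  have h3 : r ^ 2 * ZZ m 0 n g r ≤ ∫ s in (0 : ℝ)..r, s * (‖g 0 s‖ ^ 2 - ‖g n s‖ ^ 2) := by
    have : 0 ≤ (∫ s in (0 : ℝ)..r, s * (‖g 0 s‖ ^ 2 - ‖g n s‖ ^ 2)) - r ^ 2 * ZZ m 0 n g r := h1
    linarith
  have h4 := cs (g := g) (n := n) le_rfl hμ r
  have hB := BB_nonneg (m := m) le_rfl hμ n
  calc r ^ 2 * ‖g 0 r - g n r‖ ^ 2 ≤ r ^ 2 * (BB m 0 n * ZZ m 0 n g r) := by gcongr
    _ = BB m 0 n * (r ^ 2 * ZZ m 0 n g r) := by ring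
    _ ≤ _ := mul_le_mul_of_nonneg_left h3 hB

theorem BB_zero (hm : 0 ≤ m) (n : ℕ) : BB m 0 n = 2 * n * (n + m) := by
  unfold BB
  have hμ : 4 * (0 : ℝ) < 2 * (m + 1) := by linarith
  have h1 : ∀ j : ℕ, (aa m 0 j)⁻¹ = 2 * (m + 2 * j + 1) := by
    intro j
    have h2 : rho m 0 j = 1 := by
      unfold rho
      refine Finset.prod_eq_one fun i _ => ?_
      have := cc_sub_pos hμ i
      rw [mul_zero, sub_zero, add_zero, div_self]
      linarith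
    unfold aa
    rw [h2, mul_zero, add_zero, one_div, inv_inv]
    rfl
  simp_rw [h1]
  induction n with
  | zero => simp
  | succ n ih =>
    rw [Finset.sum_range_succ, ih]
    push_cast
    ring

end

end Pool.Agent.Q299.BA
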