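import Pool.Agent.Q299.BA.Mode

set_option autoImplicit false

/-!
# The bounds on discs and on the plane
-/

namespace Pool.Agent.Q299.BA

open MeasureTheory Set Filter Topology Metric Pool.Agent.TH55.PowA
open scoped SchwartzMap FourierTransform ENNReal

/-- Fourier inversion -/
lemma T_zero (f : 𝓢(ℂ, ℂ)) (z : ℂ) : T (bb 0) f z = f z := by
  have h1 : T (bb 0) f z = (𝓕⁻ (⇑(𝓕 f : 𝓢(ℂ, ℂ)) : ℂ → ℂ)) z := by
    rw [Real.fourierInv_eq']
    unfold T bb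
    refine integral_congr_ae (Eventually.of_forall fun ξ => ?_)
    simp only [pow_zero, one_mul, smul_eq_mul]
    rw [Ft_fun]
    have : (inner ℝ ξ z : ℝ) = sm z ξ := by
      rw [Complex.inner]
      simp [sm]
    rw [this]
    congr 2
    push_cast
    ring
  rw [h1, SchwartzMap.fourier_coe]
  have h2 := Continuous.fourierInv_fourier_eq f.continuous f.integrable
    (by rw [← SchwartzMap.fourier_coe]; exact (𝓕 f : 𝓢(ℂ, ℂ)).integrable)
  exact congrFun h2 z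

/-- composition with the conjugation -/
noncomputable def fc (f : 𝓢(ℂ, ℂ)) : 𝓢(ℂ, ℂ) :=
  SchwartzMap.compCLMOfContinuousLinearEquiv ℂ Complex.conjCLE f

lemma fc_apply (f : 𝓢(ℂ, ℂ)) (z : ℂ) : fc f z = f (starRingEnd ℂ z) := rfl

lemma int_conj (g : ℂ → ℂ) : ∫ x : ℂ, g (starRingEnd ℂ x) = ∫ x : ℂ, g x := by
  have h := Complex.conjLIE.measurePreserving.integral_comp
    Complex.conjLIE.toHomeomorph.measurableEmbedding g
  exact h

lemma Ft_fc (f : 𝓢(ℂ, ℂ)) (ξ : ℂ) : Ft (fc f) ξ = Ft f (starRingEnd ℂ ξ) := by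
  unfold Ft
  rw [← int_conj]
  refine integral_congr_ae (Eventually.of_forall fun x => ?_)
  simp only [fc_apply, Complex.conj_conj]
  have : sm (starRingEnd ℂ x) ξ = sm x (starRingEnd ℂ ξ) := by
    simp [sm]
  rw [this]

lemma Md_fc {k : ℤ} {f : 𝓢(ℂ, ℂ)} (hf : Md k f) : Md (-k) (fc f) := by
  intro a z ha
  rw [fc_apply, fc_apply, map_mul, hf _ _ (by rw [RCLike.norm_conj]; exact ha), conj_unit ha, inv_zpow,
    zpow_neg]

lemma Md_conj {k : ℤ} {f : ℂ → ℂ} (hf : Md k f) {z : ℂ} (hz : z ≠ 0) :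
    f (starRingEnd ℂ z) = (starRingEnd ℂ z / z) ^ k * f z := by
  have h := hf (starRingEnd ℂ z / z) z (by rw [norm_div, RCLike.norm_conj, div_self (norm_ne_zero_iff.2 hz)])
  rwa [div_mul_cancel₀ _ hz] at h

lemma norm_fc {k : ℤ} {f : 𝓢(ℂ, ℂ)} (hf : Md k f) (z : ℂ) : ‖fc f z‖ = ‖f z‖ := by
  rw [fc_apply]
  by_cases hz : z = 0
  · simp [hz]
  · rw [Md_conj hf hz, norm_mul, norm_zpow, norm_div, RCLike.norm_conj,
      div_self (norm_ne_zero_iff.2 hz), one_zpow, one_mul]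

lemma T_red {l n : ℕ} (hl : l ≤ n) {f : 𝓢(ℂ, ℂ)} (hf : Md (l : ℤ) f) :
    T (bb n) f = T (bb (n - l)) (fc f) := by
  funext z
  unfold T
  have h0 : ∀ᵐ ξ : ℂ, ξ ≠ 0 := by
    have := measure_singleton (μ := (volume : Measure ℂ)) 0
    exact compl_mem_ae_iff.2 this
  refine integral_congr_ae ?_
  filter_upwards [h0] with ξ hξ
  rw [Ft_fc, Md_conj (Ft_mode hf) hξ, zpow_natCast, ← mul_assoc (bb (n - l) ξ)]
  congr 2
  unfold bb
  rw [← pow_add, Nat.sub_add_cancel hl]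

/-- radial integrals over discs -/
lemma ball_int {F : ℂ → ℝ} {G : ℝ → ℝ} (hF : ∀ z, F z = G ‖z‖) {R : ℝ} (hR : 0 ≤ R) :
    ∫ z in ball (0 : ℂ) R, F z = 2 * Real.pi * ∫ r in (0 : ℝ)..R, r * G r := by
  rw [← integral_indicator measurableSet_ball]
  have h1 : (fun z : ℂ => (ball (0 : ℂ) R).indicator F z) = fun z : ℂ => (Iio R).indicator G ‖z‖ := by
    funext z
    by_cases h : ‖z‖ < R
    · rw [indicator_of_mem (mem_ball_zero_iff.2 h), indicator_of_mem (mem_Iio.2 h), hF]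
    · rw [indicator_of_notMem (show z ∉ ball (0 : ℂ) R from fun h' => h (mem_ball_zero_iff.1 h')),
        indicator_of_notMem (show ‖z‖ ∉ Iio R from h)]
  change ∫ z : ℂ, (ball (0 : ℂ) R).indicator F z = _
  rw [h1, integral_fun_norm_addHaar (volume : Measure ℂ) (fun r => (Iio R).indicator G r)]
  have h2 : (volume : Measure ℂ).real (ball 0 1) = Real.pi := by
    rw [Measure.real, Complex.volume_ball]
    simp
  rw [h2, Complex.finrank_real_complex]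
  have h3 : ∫ y in Ioi (0 : ℝ), y ^ (2 - 1) • (Iio R).indicator G y = ∫ r in (0 : ℝ)..R, r * G r := by
    rw [intervalIntegral.integral_of_le hR, integral_Ioc_eq_integral_Ioo]
    have h4 : ∀ y : ℝ, y ^ (2 - 1) • (Iio R).indicator G y = (Iio R).indicator (fun y => y * G y) y := by
      intro y
      by_cases h : y < R
      · rw [indicator_of_mem (mem_Iio.2 h), indicator_of_mem (mem_Iio.2 h)]
        simp
      · rw [indicator_of_notMem (show y ∉ Iio R from h), indicator_of_notMem (show y ∉ Iio R from h), smul_zero]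
    simp_rw [h4]
    rw [setIntegral_indicator measurableSet_Iio]
    rfl
  rw [h3]
  simp
  ring

lemma norm_mode {k : ℤ} {f : ℂ → ℂ} (hf : Md k f) (z : ℂ) : ‖f z‖ = ‖f ((‖z‖ : ℝ) : ℂ)‖ := by
  by_cases hz : z = 0
  · simp [hz]
  · have hn : ((‖z‖ : ℝ) : ℂ) ≠ 0 := by exact_mod_cast norm_ne_zero_iff.2 hz
    have ha : ‖z / ((‖z‖ : ℝ) : ℂ)‖ = 1 := by
      rw [norm_div, Complex.norm_real, norm_norm, div_self (norm_ne_zero_iff.2 hz)]
    have h := hf (z / ((‖z‖ : ℝ) : ℂ)) ((‖z‖ : ℝ) : ℂ) ha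
    rw [div_mul_cancel₀ _ hn] at h
    rw [h, norm_mul, norm_zpow, ha, one_zpow, one_mul]

/-- the case `k ≤ 0`, pointwise -/
lemma pt_neg {k : ℤ} (hk : k ≤ 0) (n : ℕ) {f : 𝓢(ℂ, ℂ)} (hf : Md k f) {z : ℂ} (hz : z ≠ 0) :
    ‖T (bb n) f z - (starRingEnd ℂ z / z) ^ n * f z‖ ^ 2 ≤
      n * (n - k) * ((⨍ w in ball (0 : ℂ) ‖z‖, ‖f w‖ ^ 2) - ⨍ w in ball (0 : ℂ) ‖z‖, ‖T (bb n) f w‖ ^ 2) := by
  have hm : (0 : ℝ) ≤ -(k : ℝ) := by
    have : (k : ℝ) ≤ 0 := by exact_mod_cast hk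
    linarith
  set r := ‖z‖ with hr
  have hr0 : 0 < r := norm_pos_iff.2 hz
  have hrc : (r : ℂ) ≠ 0 := by exact_mod_cast hr0.ne'
  -- the left side
  have h1 : ‖T (bb n) f z - (starRingEnd ℂ z / z) ^ n * f z‖ = ‖gg f 0 r - gg f n r‖ := by
    set a := z / (r : ℂ) with ha
    have ha1 : ‖a‖ = 1 := by
      rw [ha, norm_div, Complex.norm_real, hr, norm_norm, div_self (norm_ne_zero_iff.2 hz)]
    have hz' : z = a * r := by rw [ha, div_mul_cancel₀ _ hrc]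
    have ha0 : a ≠ 0 := by
      intro h
      rw [h] at ha1
      simp at ha1
    have e1 : T (bb n) f z = a ^ (k - 2 * n) * gg f n r := by
      rw [hz']; exact T_mode hf n a r ha1
    have e2 : f z = a ^ k * gg f 0 r := by
      rw [gg, T_zero]
      rw [hz']; exact hf a r ha1
    have e3 : (starRingEnd ℂ z / z) ^ n = a ^ (-(2 * n : ℤ)) := by
      have := bb_rot ha1 n r
      rw [← hz'] at this
      have e4 : bb n (r : ℂ) = 1 := by
        unfold bb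
        rw [Complex.conj_ofReal, div_self hrc, one_pow]
      rw [e4, mul_one] at this
      exact this
    have e6 : a ^ (k - 2 * n) = a ^ k * a ^ (-(2 * n : ℤ)) := by
      rw [sub_eq_add_neg, zpow_add₀ ha0]
    rw [e1, e2, e3, e6, sub_eq_add_neg]
    have e5 : a ^ k * a ^ (-(2 * n : ℤ)) * gg f n r + -(a ^ (-(2 * n : ℤ)) * (a ^ k * gg f 0 r)) =
        -(a ^ k * a ^ (-(2 * n : ℤ)) * (gg f 0 r - gg f n r)) := by ring
    rw [e5, norm_neg, norm_mul, norm_mul, norm_zpow, norm_zpow, ha1, one_zpow, one_zpow, one_mul, one_mul]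
  have h2 := chain_pt hm (ch hf n) hr0
  rw [BB_zero hm] at h2
  have hc0 : Continuous fun s : ℝ => s * ‖gg f 0 s‖ ^ 2 := continuous_id.mul ((gg_cont f 0).norm.pow 2)
  have hcn : Continuous fun s : ℝ => s * ‖gg f n s‖ ^ 2 := continuous_id.mul ((gg_cont f n).norm.pow 2)
  have h3 : ∫ s in (0 : ℝ)..r, s * (‖gg f 0 s‖ ^ 2 - ‖gg f n s‖ ^ 2) =
      (∫ s in (0 : ℝ)..r, s * ‖gg f 0 s‖ ^ 2) - ∫ s in (0 : ℝ)..r, s * ‖gg f n s‖ ^ 2 := by
    rw [← intervalIntegral.integral_sub (hc0.intervalIntegrable _ _) (hcn.intervalIntegrable _ _)]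
    refine intervalIntegral.integral_congr fun s _ => ?_
    ring
  have hv : (volume : Measure ℂ).real (ball 0 r) = Real.pi * r ^ 2 := by
    rw [Measure.real, Complex.volume_ball]
    rw [ENNReal.toReal_mul, ENNReal.toReal_pow, ENNReal.toReal_ofReal hr0.le, ENNReal.coe_toReal,
      NNReal.coe_real_pi, mul_comm]
  have h4 : ⨍ w in ball (0 : ℂ) r, ‖f w‖ ^ 2 = 2 / r ^ 2 * ∫ s in (0 : ℝ)..r, s * ‖gg f 0 s‖ ^ 2 := by
    rw [setAverage_eq, hv, ball_int (G := fun s => ‖gg f 0 s‖ ^ 2) (fun w => ?_) hr0.le]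
    · rw [smul_eq_mul]
      have := Real.pi_pos.ne'
      field_simp
    · rw [gg, T_zero, ← norm_mode hf w]
  have h5 : ⨍ w in ball (0 : ℂ) r, ‖T (bb n) f w‖ ^ 2 =
      2 / r ^ 2 * ∫ s in (0 : ℝ)..r, s * ‖gg f n s‖ ^ 2 := by
    rw [setAverage_eq, hv, ball_int (G := fun s => ‖gg f n s‖ ^ 2) (fun w => ?_) hr0.le]
    · rw [smul_eq_mul]
      have := Real.pi_pos.ne'
      field_simp
    · rw [gg, ← norm_mode (T_mode hf n) w]
  rw [h1, h4, h5]
  rw [h3] at h2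
  have hr2 : 0 < r ^ 2 := by positivity
  rw [← mul_le_mul_iff_right₀ hr2]
  refine h2.trans (le_of_eq ?_)
  field_simp
  ring

/-- the case `k ≤ 0`, on discs -/
lemma disc_neg {k : ℤ} (hk : k ≤ 0) (n : ℕ) {f : 𝓢(ℂ, ℂ)} (hf : Md k f) {p : ℝ} (hp : 2 ≤ p) {R : ℝ}
    (hR : 0 ≤ R) :
    (∫ z in ball (0 : ℂ) R, ‖T (bb n) f z‖ ^ p ≤
      (1 + √(n * (n - k))) ^ (p - 2) * ∫ z in ball (0 : ℂ) R, ‖f z‖ ^ p) ∧
    (1 ≤ n → ∫ z in ball (0 : ℂ) R, ‖T (bb n) f z‖ ^ p ≤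
      (7 * n) ^ (p - 2) * ∫ z in ball (0 : ℂ) R, ‖f z‖ ^ p) := by
  have hm : (0 : ℝ) ≤ -(k : ℝ) := by
    have : (k : ℝ) ≤ 0 := by exact_mod_cast hk
    linarith
  rw [ball_int (F := fun z => ‖T (bb n) f z‖ ^ p) (G := fun s => ‖gg f n s‖ ^ p)
      (fun w => by rw [gg, ← norm_mode (T_mode hf n) w]) hR,
    ball_int (F := fun z => ‖f z‖ ^ p) (G := fun s => ‖gg f 0 s‖ ^ p)
      (fun w => by rw [gg, T_zero, ← norm_mode hf w]) hR]
  have hpi := Real.pi_pos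
  refine ⟨?_, fun hn => ?_⟩
  · have h := fin_zero hp hm (ch hf n) hR
    rw [← sub_eq_add_neg] at h
    have h2 := mul_le_mul_of_nonneg_left h (show 0 ≤ 2 * Real.pi by positivity)
    refine h2.trans (le_of_eq ?_)
    ring
  · have h := fin_all hp hn hm (ch hf n) hR
    have h2 := mul_le_mul_of_nonneg_left h (show 0 ≤ 2 * Real.pi by positivity)
    refine h2.trans (le_of_eq ?_)
    ring

/-- **The pointwise bound**, `k ≤ n`. -/
theorem pt_all {k : ℤ} {n : ℕ} (hk : k ≤ n) {f : 𝓢(ℂ, ℂ)} (hf : Md k f) {z : ℂ} (hz : z ≠ 0) :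
    ‖T (bb n) f z - (starRingEnd ℂ z / z) ^ n * f z‖ ^ 2 ≤
      n * (n - k) * ((⨍ w in ball (0 : ℂ) ‖z‖, ‖f w‖ ^ 2) - ⨍ w in ball (0 : ℂ) ‖z‖, ‖T (bb n) f w‖ ^ 2) := by
  rcases le_or_gt k 0 with h0 | h0
  · exact pt_neg h0 n hf hz
  · obtain ⟨l, rfl⟩ := Int.eq_ofNat_of_zero_le h0.le
    have hl : l ≤ n := by exact_mod_cast hk
    have h1 := pt_neg (k := -(l : ℤ)) (by omega) (n - l) (Md_fc hf) hz
    rw [← T_red hl hf] at h1
    have h2 : (starRingEnd ℂ z / z) ^ (n - l) * fc f z = (starRingEnd ℂ z / z) ^ n * f z := by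
      rw [fc_apply, Md_conj hf hz, zpow_natCast, ← mul_assoc, ← pow_add, Nat.sub_add_cancel hl]
    rw [h2] at h1
    simp_rw [norm_fc hf] at h1
    have h3 : ((n - l : ℕ) : ℝ) * (((n - l : ℕ) : ℝ) - ((-(l : ℤ) : ℤ) : ℝ)) = n * (n - ((l : ℤ) : ℝ)) := by
      rw [Nat.cast_sub hl]
      push_cast
      ring
    rwa [h3] at h1

/-- **The bound on discs**, `k ≤ n`. -/
theorem disc_all {k : ℤ} {n : ℕ} (hn : 1 ≤ n) (hk : k ≤ n) {f : 𝓢(ℂ, ℂ)} (hf : Md k f) {p : ℝ}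
    (hp : 2 ≤ p) {R : ℝ} (hR : 0 ≤ R) :
    ∫ z in ball (0 : ℂ) R, ‖T (bb n) f z‖ ^ p ≤
      (min (1 + √(n * (n - k))) (7 * n)) ^ (p - 2) * ∫ z in ball (0 : ℂ) R, ‖f z‖ ^ p := by
  have hn1 : (1 : ℝ) ≤ n := by exact_mod_cast hn
  have hI : 0 ≤ ∫ z in ball (0 : ℂ) R, ‖f z‖ ^ p :=
    integral_nonneg fun z => Real.rpow_nonneg (norm_nonneg _) _
  have key : (∫ z in ball (0 : ℂ) R, ‖T (bb n) f z‖ ^ p ≤
      (1 + √(n * (n - k))) ^ (p - 2) * ∫ z in ball (0 : ℂ) R, ‖f z‖ ^ p) ∧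
    (∫ z in ball (0 : ℂ) R, ‖T (bb n) f z‖ ^ p ≤
      (7 * n) ^ (p - 2) * ∫ z in ball (0 : ℂ) R, ‖f z‖ ^ p) := by
    rcases le_or_gt k 0 with h0 | h0
    · exact ⟨(disc_neg h0 n hf hp hR).1, (disc_neg h0 n hf hp hR).2 hn⟩
    · obtain ⟨l, rfl⟩ := Int.eq_ofNat_of_zero_le h0.le
      have hl : l ≤ n := by exact_mod_cast hk
      have h1 := disc_neg (k := -(l : ℤ)) (by omega) (n - l) (Md_fc hf) hp hR
      rw [← T_red hl hf] at h1
      simp_rw [norm_fc hf] at h1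
      have h3 : ((n - l : ℕ) : ℝ) * (((n - l : ℕ) : ℝ) - ((-(l : ℤ) : ℤ) : ℝ)) = n * (n - ((l : ℤ) : ℝ)) := by
        rw [Nat.cast_sub hl]
        push_cast
        ring
      rw [h3] at h1
      refine ⟨h1.1, ?_⟩
      rcases eq_or_lt_of_le hl with h4 | h4
      · refine h1.1.trans ?_
        rw [h4]
        have h5 : (n : ℝ) * (n - ((n : ℤ) : ℝ)) = 0 := by push_cast; ring
        rw [h5, Real.sqrt_zero, add_zero, Real.one_rpow, one_mul]
        have h6 : (1 : ℝ) ≤ (7 * n) ^ (p - 2) := Real.one_le_rpow (by linarith) (by linarith)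
        nlinarith
      · refine (h1.2 (by omega)).trans ?_
        have h5 : ((n - l : ℕ) : ℝ) ≤ n := by exact_mod_cast Nat.sub_le n l
        have h6 : (0 : ℝ) ≤ ((n - l : ℕ) : ℝ) := Nat.cast_nonneg _
        gcongr
  rcases min_choice (1 + √(n * (n - k))) (7 * (n : ℝ)) with h | h
  · rw [h]; exact key.1
  · rw [h]; exact key.2

end Pool.Agent.Q299.BA
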