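import Pool.Agent.Q299.BA.Chain

set_option autoImplicit false

/-!
# The constants
-/

namespace Pool.Agent.Q299.BA

open Real MeasureTheory Set Filter Topology Finset

theorem exp58 : exp (5 / 8) ≤ 187 / 100 := by
  have h1 : exp 1 < 2.7182818286 := Real.exp_one_lt_d9
  have h2 : exp (5 / 8) ^ 8 = exp 1 ^ 5 := by
    rw [← Real.exp_nat_mul, ← Real.exp_nat_mul]
    norm_num
  have h3 : exp 1 ^ 5 ≤ (187 / 100 : ℝ) ^ 8 := by
    calc exp 1 ^ 5 ≤ (2.7182818286 : ℝ) ^ 5 := pow_le_pow_left₀ (exp_pos 1).le h1.le 5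
      _ ≤ _ := by norm_num
  exact le_of_pow_le_pow_left₀ (by norm_num) (by norm_num) (h2 ▸ h3)

theorem exp516 : exp (5 / 16) ≤ 137 / 100 := by
  have h1 : exp 1 < 2.7182818286 := Real.exp_one_lt_d9
  have h2 : exp (5 / 16) ^ 16 = exp 1 ^ 5 := by
    rw [← Real.exp_nat_mul, ← Real.exp_nat_mul]
    norm_num
  have h3 : exp 1 ^ 5 ≤ (137 / 100 : ℝ) ^ 16 := by
    calc exp 1 ^ 5 ≤ (2.7182818286 : ℝ) ^ 5 := pow_le_pow_left₀ (exp_pos 1).le h1.le 5
      _ ≤ _ := by norm_num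
  exact le_of_pow_le_pow_left₀ (by norm_num) (by norm_num) (h2 ▸ h3)

theorem ratio_le {η : ℝ} (h0 : 0 ≤ η) (h1 : η ≤ 1 / 4) : exp (-(5 / 2 * η)) ≤ (1 - η) / (1 + η) := by
  have h2 := Real.quadratic_le_exp_of_nonneg (show 0 ≤ 5 / 2 * η by positivity)
  rw [Real.exp_neg, inv_le_comm₀ (exp_pos _) (div_pos (by linarith) (by linarith)), inv_div,
    div_le_iff₀ (by linarith)]
  have h3 : (1 + 5 / 2 * η + (5 / 2 * η) ^ 2 / 2) * (1 - η) ≤ exp (5 / 2 * η) * (1 - η) :=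
    mul_le_mul_of_nonneg_right h2 (by linarith)
  nlinarith [mul_nonneg h0 h0, mul_nonneg (mul_nonneg h0 h0) h0, mul_nonneg (mul_nonneg h0 h0) (sub_nonneg.2 h1)]

section

variable {m μ η : ℝ}

theorem rho_ge (hm : 0 ≤ m) (h0 : 0 ≤ η) (h1 : η ≤ 1 / 4) (hμ : 4 * μ = 2 * (m + 1) * η) (j : ℕ) :
    exp (-(5 / 2 * η)) ^ j ≤ rho m μ j := by
  have hμ0 : 0 ≤ μ := by
    have : 0 ≤ 2 * (m + 1) * η := by positivity
    linarith
  have hμ' : 4 * μ < 2 * (m + 1) := by nlinarith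
  have hcard : exp (-(5 / 2 * η)) ^ j = ∏ _i ∈ range j, exp (-(5 / 2 * η)) := by
    rw [Finset.prod_const, Finset.card_range]
  rw [hcard]
  unfold rho
  refine Finset.prod_le_prod (fun i _ => (exp_pos _).le) fun i _ => (ratio_le h0 h1).trans ?_
  have hc := cc_add_pos hμ0 hμ' i
  rw [div_le_div_iff₀ (by linarith) hc]
  have h2 := cc_ge (m := m) i
  nlinarith

theorem BB_le (hm : 0 ≤ m) (h0 : 0 ≤ η) (h1 : η ≤ 1 / 4) (hμ : 4 * μ = 2 * (m + 1) * η) (n : ℕ) :
    BB m μ n ≤ 2 * n * (n + m) * exp (5 / 2 * η * n) := by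
  have hμ0 : 0 ≤ μ := by
    have : 0 ≤ 2 * (m + 1) * η := by positivity
    linarith
  have hμ' : 4 * μ < 2 * (m + 1) := by nlinarith
  have h2 : ∀ j ∈ range n, (aa m μ j)⁻¹ ≤ (2 * (m + 2 * j + 1)) * exp (5 / 2 * η * n) := by
    intro j hj
    have hjn : j + 1 ≤ n := Finset.mem_range.1 hj
    have hcm := cc_sub_pos hμ' j
    have hcp := cc_add_pos hμ0 hμ' j
    have hρ := rho_pos hμ0 hμ' j
    have hρ1 := rho_pos hμ0 hμ' (j + 1)
    have hc0 : 0 < cc m j := by linarith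
    have h3 : (aa m μ j)⁻¹ ≤ cc m j / rho m μ (j + 1) := by
      unfold aa
      rw [inv_div, rho_succ, div_le_div_iff₀ hρ (by positivity)]
      have h4 : cc m j * rho m μ j - (cc m j + 4 * μ) * (rho m μ j * ((cc m j - 4 * μ) / (cc m j + 4 * μ))) =
          4 * μ * rho m μ j := by
        field_simp
        ring
      have h5 : 0 ≤ 4 * μ * rho m μ j := by positivity
      linarith
    refine h3.trans ?_
    rw [div_le_iff₀ hρ1]
    have h4 := rho_ge hm h0 h1 hμ (j + 1)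
    have h5 : 1 ≤ exp (5 / 2 * η * n) * rho m μ (j + 1) := by
      have h6 : exp (5 / 2 * η * n) * exp (-(5 / 2 * η)) ^ (j + 1) =
          exp (5 / 2 * η * (n - (j + 1 : ℕ))) := by
        rw [← Real.exp_nat_mul, ← Real.exp_add]
        congr 1
        push_cast
        ring
      have h7 : 1 ≤ exp (5 / 2 * η * (n - (j + 1 : ℕ))) := by
        apply Real.one_le_exp
        have : ((j + 1 : ℕ) : ℝ) ≤ n := by exact_mod_cast hjn
        have : 0 ≤ (n : ℝ) - ((j + 1 : ℕ) : ℝ) := by linarith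
        positivity
      calc (1 : ℝ) ≤ exp (5 / 2 * η * (n - (j + 1 : ℕ))) := h7
        _ = exp (5 / 2 * η * n) * exp (-(5 / 2 * η)) ^ (j + 1) := h6.symm
        _ ≤ _ := by gcongr
    change cc m j ≤ cc m j * exp (5 / 2 * η * n) * rho m μ (j + 1)
    nlinarith
  have h3 := Finset.sum_le_sum h2
  rw [← Finset.sum_mul] at h3
  refine h3.trans (le_of_eq ?_)
  congr 1
  clear h3 h2
  induction n with
  | zero => simp
  | succ n ih =>
    rw [Finset.sum_range_succ, ih]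
    push_cast
    ring

end

variable {m : ℝ} {n : ℕ} {g W : ℕ → ℝ → ℂ}

/-- the bound with `μ = 0` -/
theorem fin_zero {p : ℝ} (hp : 2 ≤ p) (hm : 0 ≤ m) (h : Ch m n g W) {R : ℝ} (hR : 0 ≤ R) :
    ∫ r in (0 : ℝ)..R, r * ‖g n r‖ ^ p ≤
      (1 + √(n * (n + m))) ^ (p - 2) * ∫ r in (0 : ℝ)..R, r * ‖g 0 r‖ ^ p := by
  have hμ : 4 * (0 : ℝ) < 2 * (m + 1) := by linarith
  have h1 := chain_int (μ := 0) (M := 2) hp le_rfl (by ring) hμ h hR
  have h2 : rho m 0 n = 1 := by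
    unfold rho
    refine Finset.prod_eq_one fun i _ => ?_
    have := cc_sub_pos hμ i
    rw [mul_zero, sub_zero, add_zero, div_self]
    linarith
  rw [h2, Real.sqrt_one, BB_zero hm] at h1
  simp only [one_mul] at h1
  rwa [show 2 * (n : ℝ) * (n + m) / 2 = n * (n + m) by ring] at h1

/-- the bound for large `m` -/
theorem fin_large {p : ℝ} (hp : 2 ≤ p) (hn : 1 ≤ n) (hm : 35 * n ≤ m) (h : Ch m n g W) {R : ℝ}
    (hR : 0 ≤ R) :
    ∫ r in (0 : ℝ)..R, r * ‖g n r‖ ^ p ≤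
      (7 * n) ^ (p - 2) * ∫ r in (0 : ℝ)..R, r * ‖g 0 r‖ ^ p := by
  have hn1 : (1 : ℝ) ≤ n := by exact_mod_cast hn
  have hn0 : (0 : ℝ) < n := by linarith
  have hm0 : 0 ≤ m := by linarith
  have hp0 : 0 < p := by linarith
  set e := 1 - 2 / p with he
  have he0 : 0 ≤ e := by rw [he, sub_nonneg, div_le_one hp0]; exact hp
  have he1 : e ≤ 1 := by
    have : 0 < 2 / p := by positivity
    linarith
  set M := 2 + (m + 1) / (4 * n) with hMd
  have hM : 2 ≤ M := by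
    have : 0 ≤ (m + 1) / (4 * n) := by positivity
    linarith
  set μ := e * (M - 2) / 2 with hμd
  set η := e / (4 * n) with hη
  have hη0 : 0 ≤ η := by positivity
  have hη1 : η ≤ 1 / 4 := by
    rw [hη, div_le_div_iff₀ (by positivity) (by norm_num)]
    nlinarith
  have hμe : 4 * μ = 2 * (m + 1) * η := by
    rw [hμd, hη, hMd]
    field_simp
    ring
  have hμ : 4 * μ < 2 * (m + 1) := by
    rw [hμe]; nlinarith
  have hμ0 : 0 ≤ μ := by
    have : 0 ≤ M - 2 := by linarith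
    positivity
  have h1 := chain_int (μ := μ) (M := M) hp hM rfl hμ h hR
  have hρ := rho_pos hμ0 hμ n
  have hρge := rho_ge hm0 hη0 hη1 hμe n
  have hρ2 : exp (-(5 / 8 * e)) ≤ rho m μ n := by
    refine le_trans (le_of_eq ?_) hρge
    rw [← Real.exp_nat_mul]
    congr 1
    rw [hη]
    field_simp
    ring
  have hB := BB_le hm0 hη0 hη1 hμe n
  have hB2 : BB m μ n ≤ 2 * n * (n + m) * (187 / 100) := by
    refine hB.trans ?_
    have h2 : exp (5 / 2 * η * n) ≤ 187 / 100 := by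
      refine le_trans ?_ exp58
      apply Real.exp_le_exp.2
      have : 5 / 2 * η * n = 5 / 8 * e := by rw [hη]; field_simp; ring
      rw [this]
      linarith
    gcongr
  have hBM : √(BB m μ n / M) ≤ 394 / 100 * n := by
    refine Real.sqrt_le_iff.2 ⟨by positivity, ?_⟩
    have hM0 : 0 < M := by linarith
    rw [div_le_iff₀ hM0]
    refine hB2.trans ?_
    have h2 : (394 / 100 * (n : ℝ)) ^ 2 * ((m + 1) / (4 * n)) ≤ (394 / 100 * (n : ℝ)) ^ 2 * M := by
      apply mul_le_mul_of_nonneg_left _ (by positivity)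
      linarith
    refine le_trans ?_ h2
    have h3 : (394 / 100 * (n : ℝ)) ^ 2 * ((m + 1) / (4 * n)) = (394 / 100) ^ 2 / 4 * n * (m + 1) := by
      field_simp
    rw [h3]
    nlinarith [mul_nonneg hn0.le (sub_nonneg.2 hm)]
  set X := ∫ r in (0 : ℝ)..R, r * ‖g n r‖ ^ p with hX
  set Y := ∫ r in (0 : ℝ)..R, r * ‖g 0 r‖ ^ p with hY
  have hY0 : 0 ≤ Y := intervalIntegral.integral_nonneg hR fun r hr =>
    mul_nonneg hr.1 (Real.rpow_nonneg (norm_nonneg _) _)
  have hX0 : 0 ≤ X := intervalIntegral.integral_nonneg hR fun r hr =>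
    mul_nonneg hr.1 (Real.rpow_nonneg (norm_nonneg _) _)
  have h2 : ∫ r in (0 : ℝ)..R, r * (√(rho m μ n) * ‖g n r‖) ^ p = (rho m μ n) ^ (p / 2) * X := by
    rw [hX, ← intervalIntegral.integral_const_mul]
    refine intervalIntegral.integral_congr fun r _ => ?_
    change r * (√(rho m μ n) * ‖g n r‖) ^ p = rho m μ n ^ (p / 2) * (r * ‖g n r‖ ^ p)
    rw [Real.mul_rpow (Real.sqrt_nonneg _) (norm_nonneg _), Real.sqrt_eq_rpow, ← Real.rpow_mul hρ.le]
    rw [show 1 / 2 * p = p / 2 by ring]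
    ring
  rw [h2] at h1
  have h3 : exp (-(5 / 16)) ^ (p - 2) ≤ rho m μ n ^ (p / 2) := by
    have h4 : exp (-(5 / 16)) ^ (p - 2) = exp (-(5 / 8 * e)) ^ (p / 2) := by
      rw [← Real.exp_mul, ← Real.exp_mul]
      congr 1
      rw [he]
      field_simp
      ring
    rw [h4]
    exact Real.rpow_le_rpow (exp_pos _).le hρ2 (by linarith)
  have hq : 0 ≤ p - 2 := by linarith
  have h4 : exp (-(5 / 16)) ^ (p - 2) * X ≤ (1 + 394 / 100 * n) ^ (p - 2) * Y := by
    calc exp (-(5 / 16)) ^ (p - 2) * X ≤ rho m μ n ^ (p / 2) * X := by gcongr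
      _ ≤ _ := h1
      _ ≤ _ := by gcongr
  have h5 : X = exp (5 / 16) ^ (p - 2) * (exp (-(5 / 16)) ^ (p - 2) * X) := by
    rw [← mul_assoc, ← Real.mul_rpow (exp_pos _).le (exp_pos _).le, ← Real.exp_add, add_neg_cancel,
      Real.exp_zero, Real.one_rpow, one_mul]
  rw [h5]
  calc exp (5 / 16) ^ (p - 2) * (exp (-(5 / 16)) ^ (p - 2) * X)
      ≤ exp (5 / 16) ^ (p - 2) * ((1 + 394 / 100 * n) ^ (p - 2) * Y) := by
        gcongr
    _ = (exp (5 / 16) * (1 + 394 / 100 * n)) ^ (p - 2) * Y := by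
        rw [Real.mul_rpow (exp_pos _).le (by positivity)]; ring
    _ ≤ (7 * n) ^ (p - 2) * Y := by
        have h6 := exp516
        have h7 : exp (5 / 16) * (1 + 394 / 100 * n) ≤ 7 * n := by
          calc exp (5 / 16) * (1 + 394 / 100 * n) ≤ 137 / 100 * (1 + 394 / 100 * n) := by gcongr
            _ ≤ 7 * n := by linarith
        gcongr

/-- **The uniform bound.** -/
theorem fin_all {p : ℝ} (hp : 2 ≤ p) (hn : 1 ≤ n) (hm : 0 ≤ m) (h : Ch m n g W) {R : ℝ}
    (hR : 0 ≤ R) :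
    ∫ r in (0 : ℝ)..R, r * ‖g n r‖ ^ p ≤
      (7 * n) ^ (p - 2) * ∫ r in (0 : ℝ)..R, r * ‖g 0 r‖ ^ p := by
  have hn1 : (1 : ℝ) ≤ n := by exact_mod_cast hn
  rcases le_or_gt (35 * (n : ℝ)) m with h1 | h1
  · exact fin_large hp hn h1 h hR
  · refine (fin_zero hp hm h hR).trans ?_
    have hY0 : 0 ≤ ∫ r in (0 : ℝ)..R, r * ‖g 0 r‖ ^ p := intervalIntegral.integral_nonneg hR fun r hr =>
      mul_nonneg hr.1 (Real.rpow_nonneg (norm_nonneg _) _)
    have h2 : √(n * (n + m)) ≤ 6 * n := by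
      refine Real.sqrt_le_iff.2 ⟨by positivity, ?_⟩
      nlinarith
    have h3 : 1 + √(n * (n + m)) ≤ 7 * n := by linarith
    gcongr

/-- `log (p - 1) ≥ 2 (1 - 2 / p)` -/
theorem log_ge {p : ℝ} (hp : 2 ≤ p) : 2 * (1 - 2 / p) ≤ log (p - 1) := by
  set φ : ℝ → ℝ := fun u => log u - 2 * (1 - 2 / (u + 1)) with hφ
  have hD : ∀ u : ℝ, 0 < u → HasDerivAt φ (u⁻¹ - 2 * (2 / (u + 1) ^ 2)) u := by
    intro u hu
    have e1 := Real.hasDerivAt_log hu.ne'
    have e2 : HasDerivAt (fun u : ℝ => u + 1) 1 u := (hasDerivAt_id u).add_const 1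
    have e3 : HasDerivAt (fun u : ℝ => 2 / (u + 1)) (-(2 / (u + 1) ^ 2)) u := by
      have := e2.fun_inv (by linarith)
      refine ((this.const_mul 2).congr_of_eventuallyEq ?_).congr_deriv ?_
      · exact Eventually.of_forall fun v => by simp [div_eq_mul_inv]
      · ring
    refine (e1.fun_sub (((hasDerivAt_const u (1 : ℝ)).fun_sub e3).const_mul 2)).congr_deriv ?_
    ring
  have hmono : MonotoneOn φ (Ici 1) := by
    refine monotoneOn_of_deriv_nonneg (convex_Ici 1) ?_ ?_ ?_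
    · intro u hu
      exact (hD u (lt_of_lt_of_le one_pos hu)).continuousAt.continuousWithinAt
    · intro u hu
      rw [interior_Ici] at hu
      exact (hD u (one_pos.trans hu)).differentiableAt.differentiableWithinAt
    · intro u hu
      rw [interior_Ici] at hu
      have hu0 : 0 < u := one_pos.trans hu
      rw [(hD u hu0).deriv]
      have : u⁻¹ - 2 * (2 / (u + 1) ^ 2) = (u - 1) ^ 2 / (u * (u + 1) ^ 2) := by
        field_simp
        ring
      rw [this]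
      positivity
  have h1 := hmono (mem_Ici.2 le_rfl) (mem_Ici.2 (show (1 : ℝ) ≤ p - 1 by linarith)) (by linarith)
  have h2 : φ 1 = 0 := by simp [hφ]; norm_num
  rw [h2] at h1
  have h3 : 0 ≤ log (p - 1) - 2 * (1 - 2 / (p - 1 + 1)) := h1
  rw [sub_add_cancel] at h3
  linarith

end Pool.Agent.Q299.BA
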