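import Pool.Agent.TH55.PowA
import Pool.Agent.Q299.BA.Num

set_option autoImplicit false

/-!
# The powers of the Beurling transform on angular modes
-/

namespace Pool.Agent.Q299.BA

open MeasureTheory Set Filter Topology Pool.Agent.TH55.PowA
open scoped SchwartzMap FourierTransform

/-- the symbol of the `j`-th power -/
noncomputable def bb (j : ℕ) (ξ : ℂ) : ℂ := (starRingEnd ℂ ξ / ξ) ^ j

lemma adm_bb (j : ℕ) : Adm (bb j) where
  meas := by
    unfold bb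
    exact ((Complex.continuous_conj.measurable).div measurable_id).pow_const j
  le1 ξ := by
    unfold bb
    rw [norm_pow, norm_div, RCLike.norm_conj]
    exact pow_le_one₀ (by positivity) (div_self_le_one _)

/-- the linear form `v ↦ v · ξ` -/
noncomputable def sl (ξ : ℂ) : ℂ →L[ℝ] ℝ := ξ.re • Complex.reCLM + ξ.im • Complex.imCLM

lemma sl_apply (ξ v : ℂ) : sl ξ v = sm v ξ := by
  simp [sl, sm]
  ring

lemma norm_sl (ξ : ℂ) : ‖sl ξ‖ ≤ 2 * ‖ξ‖ := by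
  refine ContinuousLinearMap.opNorm_le_bound _ (by positivity) fun v => ?_
  rw [sl_apply, sm, Real.norm_eq_abs]
  have h1 : |v.re * ξ.re| ≤ ‖v‖ * ‖ξ‖ := by
    rw [abs_mul]
    exact mul_le_mul (Complex.abs_re_le_norm _) (Complex.abs_re_le_norm _) (abs_nonneg _) (norm_nonneg _)
  have h2 : |v.im * ξ.im| ≤ ‖v‖ * ‖ξ‖ := by
    rw [abs_mul]
    exact mul_le_mul (Complex.abs_im_le_norm _) (Complex.abs_im_le_norm _) (abs_nonneg _) (norm_nonneg _)
  calc |v.re * ξ.re + v.im * ξ.im| ≤ |v.re * ξ.re| + |v.im * ξ.im| := abs_add_le _ _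
    _ ≤ 2 * ‖ξ‖ * ‖v‖ := by linarith

/-- the integrand of `T` -/
noncomputable def ig (m : ℂ → ℂ) (f : 𝓢(ℂ, ℂ)) (z ξ : ℂ) : ℂ :=
  Complex.exp (2 * (Real.pi : ℂ) * Complex.I * ((sm z ξ : ℝ) : ℂ)) * (m ξ * Ft f ξ)

/-- the derivative of the integrand -/
noncomputable def ig' (m : ℂ → ℂ) (f : 𝓢(ℂ, ℂ)) (z ξ : ℂ) : ℂ →L[ℝ] ℂ :=
  (sl ξ).smulRight (2 * (Real.pi : ℂ) * Complex.I * ig m f z ξ)

lemma norm_ig {m : ℂ → ℂ} (hm : Adm m) (f : 𝓢(ℂ, ℂ)) (z ξ : ℂ) : ‖ig m f z ξ‖ ≤ ‖Ft f ξ‖ := by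
  unfold ig
  rw [norm_mul, norm_ex, one_mul, norm_mul]
  calc ‖m ξ‖ * ‖Ft f ξ‖ ≤ 1 * ‖Ft f ξ‖ := by gcongr; exact hm.le1 ξ
    _ = _ := one_mul _

lemma norm_ig' {m : ℂ → ℂ} (hm : Adm m) (f : 𝓢(ℂ, ℂ)) (z ξ : ℂ) :
    ‖ig' m f z ξ‖ ≤ 4 * Real.pi * (‖ξ‖ ^ 1 * ‖Ft f ξ‖) := by
  unfold ig'
  rw [ContinuousLinearMap.norm_smulRight_apply]
  have h1 : ‖2 * (Real.pi : ℂ) * Complex.I * ig m f z ξ‖ = 2 * Real.pi * ‖ig m f z ξ‖ := by
    rw [norm_mul, norm_mul, norm_mul, Complex.norm_I, Complex.norm_real, Complex.norm_ofNat,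
      Real.norm_eq_abs, abs_of_pos Real.pi_pos, mul_one]
  rw [h1]
  calc ‖sl ξ‖ * (2 * Real.pi * ‖ig m f z ξ‖) ≤ (2 * ‖ξ‖) * (2 * Real.pi * ‖Ft f ξ‖) := by
        have := norm_sl ξ
        have := norm_ig hm f z ξ
        have := Real.pi_pos
        gcongr
    _ = _ := by ring

lemma bound_int (f : 𝓢(ℂ, ℂ)) : Integrable (fun ξ : ℂ => 4 * Real.pi * (‖ξ‖ ^ 1 * ‖Ft f ξ‖)) := by
  rw [Ft_fun]
  exact ((𝓕 f : 𝓢(ℂ, ℂ)).integrable_pow_mul volume 1).const_mul _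

lemma ig_meas {m : ℂ → ℂ} (hm : Adm m) (f : 𝓢(ℂ, ℂ)) (z : ℂ) : AEStronglyMeasurable (ig m f z) volume :=
  (T_integrand_int hm f z).aestronglyMeasurable

lemma ig'_meas {m : ℂ → ℂ} (hm : Adm m) (f : 𝓢(ℂ, ℂ)) (z : ℂ) :
    AEStronglyMeasurable (ig' m f z) volume := by
  have h0 : ig' m f z = fun ξ : ℂ =>
      ξ.re • (ContinuousLinearMap.smulRightL ℝ ℂ ℂ Complex.reCLM (2 * (Real.pi : ℂ) * Complex.I * ig m f z ξ)) +
      ξ.im • (ContinuousLinearMap.smulRightL ℝ ℂ ℂ Complex.imCLM (2 * (Real.pi : ℂ) * Complex.I * ig m f z ξ)) := by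
    funext ξ
    ext v
    simp [ig', sl]
    ring
  rw [h0]
  have h1 : AEStronglyMeasurable (fun ξ : ℂ => 2 * (Real.pi : ℂ) * Complex.I * ig m f z ξ) volume :=
    (ig_meas hm f z).const_mul _
  refine AEStronglyMeasurable.add ?_ ?_
  · exact (Complex.continuous_re.aestronglyMeasurable).smul
      ((ContinuousLinearMap.smulRightL ℝ ℂ ℂ Complex.reCLM).continuous.comp_aestronglyMeasurable h1)
  · exact (Complex.continuous_im.aestronglyMeasurable).smul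
      ((ContinuousLinearMap.smulRightL ℝ ℂ ℂ Complex.imCLM).continuous.comp_aestronglyMeasurable h1)

lemma ig'_int {m : ℂ → ℂ} (hm : Adm m) (f : 𝓢(ℂ, ℂ)) (z : ℂ) : Integrable (ig' m f z) :=
  (bound_int f).mono' (ig'_meas hm f z) (Eventually.of_forall fun ξ => norm_ig' hm f z ξ)

/-- the derivative of `T m f` -/
noncomputable def dT (m : ℂ → ℂ) (f : 𝓢(ℂ, ℂ)) (z : ℂ) : ℂ →L[ℝ] ℂ := ∫ ξ : ℂ, ig' m f z ξ

lemma T_fderiv {m : ℂ → ℂ} (hm : Adm m) (f : 𝓢(ℂ, ℂ)) (z : ℂ) : HasFDerivAt (T m f) (dT m f z) z := by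
  have h := hasFDerivAt_integral_of_dominated_of_fderiv_le (𝕜 := ℝ) (μ := (volume : Measure ℂ))
    (F := fun z ξ => ig m f z ξ) (F' := fun z ξ => ig' m f z ξ)
    (bound := fun ξ : ℂ => 4 * Real.pi * (‖ξ‖ ^ 1 * ‖Ft f ξ‖)) (s := univ) (x₀ := z) univ_mem
    (Eventually.of_forall fun z => ig_meas hm f z) (T_integrand_int hm f z) (ig'_meas hm f z)
    (Eventually.of_forall fun ξ z _ => norm_ig' hm f z ξ) (bound_int f)
    (Eventually.of_forall fun ξ z _ => ?_)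
  · exact h
  · have h1 : HasFDerivAt (fun z : ℂ => sm z ξ) (sl ξ) z := by
      have := (sl ξ).hasFDerivAt (x := z)
      refine this.congr_of_eventuallyEq (Eventually.of_forall fun z => (sl_apply ξ z).symm)
    have h2 : HasFDerivAt (fun z : ℂ => ((sm z ξ : ℝ) : ℂ)) (Complex.ofRealCLM.comp (sl ξ)) z :=
      Complex.ofRealCLM.hasFDerivAt.comp z h1
    have h3 : HasFDerivAt (fun z : ℂ => 2 * (Real.pi : ℂ) * Complex.I * ((sm z ξ : ℝ) : ℂ))
        ((2 * (Real.pi : ℂ) * Complex.I) • (Complex.ofRealCLM.comp (sl ξ))) z := h2.const_mul _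
    have h4 := (h3.cexp.mul_const (m ξ * Ft f ξ))
    refine h4.congr_fderiv ?_
    ext v
    simp [ig', ig]
    ring

lemma dT_apply {m : ℂ → ℂ} (hm : Adm m) (f : 𝓢(ℂ, ℂ)) (z v : ℂ) :
    dT m f z v = ∫ ξ : ℂ, ((sm v ξ : ℝ) : ℂ) * (2 * (Real.pi : ℂ) * Complex.I * ig m f z ξ) := by
  unfold dT
  rw [ContinuousLinearMap.integral_apply (ig'_int hm f z)]
  refine integral_congr_ae (Eventually.of_forall fun ξ => ?_)
  simp only [ig', ContinuousLinearMap.smulRight_apply, sl_apply, Complex.real_smul]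

lemma dT_int {m : ℂ → ℂ} (hm : Adm m) (f : 𝓢(ℂ, ℂ)) (z v : ℂ) :
    Integrable fun ξ : ℂ => ((sm v ξ : ℝ) : ℂ) * (2 * (Real.pi : ℂ) * Complex.I * ig m f z ξ) := by
  have h := (ContinuousLinearMap.apply ℝ ℂ v).integrable_comp (ig'_int hm f z)
  refine h.congr (Eventually.of_forall fun ξ => ?_)
  simp only [ig', ContinuousLinearMap.apply_apply, ContinuousLinearMap.smulRight_apply, sl_apply,
    Complex.real_smul]

/-- `∂̄ (T^(j+1) f) = ∂ (T^j f)` -/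
lemma dbar_eq (j : ℕ) (f : 𝓢(ℂ, ℂ)) (z : ℂ) :
    dT (bb (j + 1)) f z 1 + Complex.I * dT (bb (j + 1)) f z Complex.I =
      dT (bb j) f z 1 - Complex.I * dT (bb j) f z Complex.I := by
  rw [dT_apply (adm_bb _), dT_apply (adm_bb _), dT_apply (adm_bb _), dT_apply (adm_bb _),
    ← integral_const_mul, ← integral_const_mul,
    ← integral_add (dT_int (adm_bb _) f z 1) ((dT_int (adm_bb _) f z Complex.I).const_mul _),
    ← integral_sub (dT_int (adm_bb _) f z 1) ((dT_int (adm_bb _) f z Complex.I).const_mul _)]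
  refine integral_congr_ae (Eventually.of_forall fun ξ => ?_)
  have h1 : sm 1 ξ = ξ.re := by simp [sm]
  have h2 : sm Complex.I ξ = ξ.im := by simp [sm]
  simp only [h1, h2, ig]
  have h3 : ξ * bb (j + 1) ξ = starRingEnd ℂ ξ * bb j ξ := by
    by_cases h : ξ = 0
    · simp [h]
    · unfold bb
      rw [pow_succ]
      field_simp
  have h4 : (ξ.re : ℂ) + Complex.I * ξ.im = ξ := by
    rw [mul_comm]; exact Complex.re_add_im ξ
  have h5 : (ξ.re : ℂ) - Complex.I * ξ.im = starRingEnd ℂ ξ := by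
    apply Complex.ext <;> simp
  set E := Complex.exp (2 * (Real.pi : ℂ) * Complex.I * ((sm z ξ : ℝ) : ℂ)) with hE
  calc _ = ((ξ.re : ℂ) + Complex.I * ξ.im) * bb (j + 1) ξ * (2 * (Real.pi : ℂ) * Complex.I * (E * Ft f ξ)) := by ring
    _ = ((ξ.re : ℂ) - Complex.I * ξ.im) * bb j ξ * (2 * (Real.pi : ℂ) * Complex.I * (E * Ft f ξ)) := by
        rw [h4, h5, h3]
    _ = _ := by ring

/-- rotations preserve the integral -/
lemma int_rot {a : ℂ} (ha : ‖a‖ = 1) (g : ℂ → ℂ) : ∫ x : ℂ, g (a * x) = ∫ x : ℂ, g x := by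
  have hu : a ∈ Submonoid.unitSphere ℂ := by
    simp [Submonoid.unitSphere, ha]
  have h := (rotation (⟨a, hu⟩ : Circle)).measurePreserving.integral_comp
    (rotation (⟨a, hu⟩ : Circle)).toHomeomorph.measurableEmbedding g
  exact h

end Pool.Agent.Q299.BA
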