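import Pool.Agent.Q299.BA.Num

set_option autoImplicit false

/-!
# The constant `7 n` and the Pochhammer quotient
-/

namespace Pool.Agent.Q299.BA

open Real Set Filter Topology

/-- the Pochhammer quotient `(1/q)_n / (1/p)_n` -/
noncomputable def KK (n : ℕ) (p : ℝ) : ℝ :=
  (ascPochhammer ℝ n).eval (1 - 1 / p) / (ascPochhammer ℝ n).eval (1 / p)

theorem log_ge' {u : ℝ} (hu : 1 ≤ u) : 2 * ((u - 1) / (u + 1)) ≤ log u := by
  have h := log_ge (p := u + 1) (by linarith)
  rw [add_sub_cancel_right] at h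
  refine le_trans (le_of_eq ?_) h
  field_simp
  ring

/-- Padé bound -/
theorem log_one_add_le {x : ℝ} (hx : 0 ≤ x) : log (1 + x) ≤ x * (6 + x) / (6 + 4 * x) := by
  set φ : ℝ → ℝ := fun x => x * (6 + x) / (6 + 4 * x) - log (1 + x) with hφ
  have hD : ∀ x : ℝ, 0 ≤ x → HasDerivAt φ (((6 + 2 * x) * (6 + 4 * x) - x * (6 + x) * 4) / (6 + 4 * x) ^ 2 -
      1 / (1 + x)) x := by
    intro x hx
    have e0 : HasDerivAt (fun x : ℝ => x) 1 x := hasDerivAt_id x
    have e1 : HasDerivAt (fun x : ℝ => x * (6 + x)) (6 + 2 * x) x := by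
      refine (e0.fun_mul (e0.const_add 6)).congr_deriv ?_
      ring
    have e2 : HasDerivAt (fun x : ℝ => 6 + 4 * x) 4 x := by
      refine ((e0.const_mul 4).const_add 6).congr_deriv ?_
      ring
    have e3 := e1.fun_div e2 (by positivity)
    have e4 : HasDerivAt (fun x : ℝ => log (1 + x)) (1 / (1 + x)) x :=
      (e0.const_add 1).log (by positivity)
    exact e3.fun_sub e4
  have hmono : MonotoneOn φ (Ici 0) := by
    refine monotoneOn_of_deriv_nonneg (convex_Ici 0) ?_ ?_ ?_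
    · intro u hu
      exact (hD u hu).continuousAt.continuousWithinAt
    · intro u hu
      rw [interior_Ici] at hu
      exact (hD u (le_of_lt hu)).differentiableAt.differentiableWithinAt
    · intro u hu
      rw [interior_Ici] at hu
      have hu0 : 0 < u := hu
      rw [(hD u hu0.le).deriv]
      have : ((6 + 2 * u) * (6 + 4 * u) - u * (6 + u) * 4) / (6 + 4 * u) ^ 2 - 1 / (1 + u) =
          4 * u ^ 3 / ((6 + 4 * u) ^ 2 * (1 + u)) := by
        field_simp
        ring
      rw [this]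
      positivity
  have h1 := hmono (mem_Ici.2 le_rfl) (mem_Ici.2 hx) hx
  have h2 : φ 0 = 0 := by simp [hφ]
  rw [h2] at h1
  have h3 : 0 ≤ x * (6 + x) / (6 + 4 * x) - log (1 + x) := h1
  linarith

/-- `2 ∑ 1 / (2 j + 1)` -/
noncomputable def SS (n : ℕ) : ℝ := ∑ j ∈ Finset.range n, 2 / (2 * (j : ℝ) + 1)

theorem log_seven : log 7 ≤ 39 / 20 := by
  rw [Real.log_le_iff_le_exp (by norm_num)]
  have h1 : (2.7182818283 : ℝ) < exp 1 := Real.exp_one_gt_d9
  have h2 : exp (39 / 20) ^ 20 = exp 1 ^ 39 := by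
    rw [← Real.exp_nat_mul, ← Real.exp_nat_mul]
    norm_num
  have h3 : (7 : ℝ) ^ 20 ≤ exp 1 ^ 39 := by
    calc (7 : ℝ) ^ 20 ≤ (2.7182818283 : ℝ) ^ 39 := by norm_num
      _ ≤ _ := pow_le_pow_left₀ (by norm_num) h1.le 39
  exact le_of_pow_le_pow_left₀ (n := 20) (by norm_num) (exp_pos _).le (h2 ▸ h3)

theorem SS_ge : ∀ n : ℕ, log 7 + log ((n : ℝ) + 1) + 1 / (20 * ((n : ℝ) + 1) ^ 2) ≤ SS (n + 1) := by
  intro n
  induction n with
  | zero =>
    have := log_seven
    simp [SS]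
    linarith
  | succ n ih =>
    have h1 : SS (n + 1 + 1) = SS (n + 1) + 2 / (2 * ((n : ℝ) + 1) + 1) := by
      unfold SS
      rw [Finset.sum_range_succ]
      push_cast
      ring
    rw [h1]
    push_cast
    set N : ℝ := (n : ℝ) + 1 with hN
    have hN0 : 0 < N := by positivity
    have h2 := log_one_add_le (x := 1 / N) (by positivity)
    have h3 : log (N + 1) = log N + log (1 + 1 / N) := by
      rw [← Real.log_mul hN0.ne' (by positivity)]
      congr 1
      field_simp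
    have h4 : 1 / N * (6 + 1 / N) / (6 + 4 * (1 / N)) + 1 / (20 * (N + 1) ^ 2) ≤
        2 / (2 * N + 1) + 1 / (20 * N ^ 2) := by
      rw [← sub_nonneg]
      have : 2 / (2 * N + 1) + 1 / (20 * N ^ 2) -
          (1 / N * (6 + 1 / N) / (6 + 4 * (1 / N)) + 1 / (20 * (N + 1) ^ 2)) =
          (4 * N ^ 3 + 2 * N + 4) / (20 * N ^ 2 * (N + 1) ^ 2 * (6 * N + 4) * (2 * N + 1)) := by
        field_simp
        ring
      rw [this]
      positivity
    rw [h3]
    linarith

theorem KK_pos (n : ℕ) {p : ℝ} (hp : 2 ≤ p) : 0 < (ascPochhammer ℝ n).eval (1 - 1 / p) ∧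
    0 < (ascPochhammer ℝ n).eval (1 / p) := by
  have h1 : 0 < 1 / p := by positivity
  have h2 : 0 < 1 - 1 / p := by
    rw [sub_pos, div_lt_one (by linarith)]
    linarith
  exact ⟨ascPochhammer_pos n _ h2, ascPochhammer_pos n _ h1⟩

theorem log_KK (n : ℕ) {p : ℝ} (hp : 2 ≤ p) : (1 - 2 / p) * SS n ≤ log (KK n p) := by
  have hp0 : 0 < p := by linarith
  have h1p : 0 < 1 / p := by positivity
  have h1q : 1 / p ≤ 1 - 1 / p := by
    have : 2 / p ≤ 1 := by rw [div_le_one hp0]; exact hp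
    have h : 2 / p = 1 / p + 1 / p := by ring
    linarith
  induction n with
  | zero => simp [SS, KK]
  | succ n ih =>
    obtain ⟨h1, h2⟩ := KK_pos n hp
    have hn : (0 : ℝ) ≤ n := Nat.cast_nonneg n
    have h3 : KK (n + 1) p = KK n p * ((1 - 1 / p + n) / (1 / p + n)) := by
      unfold KK
      rw [ascPochhammer_succ_eval, ascPochhammer_succ_eval, mul_div_mul_comm]
    have h4 : 0 < KK n p := div_pos h1 h2
    have h5 : 0 < (1 - 1 / p + n) / (1 / p + n) := by
      apply div_pos <;> linarith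
    rw [h3, Real.log_mul h4.ne' h5.ne']
    have h6 : 1 ≤ (1 - 1 / p + n) / (1 / p + n) := by
      rw [one_le_div (by linarith)]; linarith
    have h7 := log_ge' h6
    have h8 : 2 * (((1 - 1 / p + n) / (1 / p + n) - 1) / ((1 - 1 / p + n) / (1 / p + n) + 1)) =
        (1 - 2 / p) * (2 / (2 * (n : ℝ) + 1)) := by
      have h9 : (1 : ℝ) / p + n ≠ 0 := by linarith
      have h10 : 2 * (n : ℝ) + 1 ≠ 0 := by positivity
      have h11 : (1 - 1 / p + n) / (1 / p + n) - 1 = (1 - 2 / p) / (1 / p + n) := by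
        field_simp
        ring
      have h12 : (1 - 1 / p + n) / (1 / p + n) + 1 = (2 * n + 1) / (1 / p + n) := by
        field_simp
        ring
      rw [h11, h12, div_div_div_cancel_right₀ h9]
      ring
    rw [h8] at h7
    have h9 : SS (n + 1) = SS n + 2 / (2 * (n : ℝ) + 1) := Finset.sum_range_succ _ _
    rw [h9, mul_add]
    linarith

/-- `(7 n) ^ (1 - 2/p)` is at most the Pochhammer quotient -/
theorem seven_le {n : ℕ} (hn : 1 ≤ n) {p : ℝ} (hp : 2 ≤ p) : (7 * (n : ℝ)) ^ (1 - 2 / p) ≤ KK n p := by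
  have hp0 : 0 < p := by linarith
  have hn0 : (0 : ℝ) < n := by exact_mod_cast hn
  obtain ⟨h1, h2⟩ := KK_pos n hp
  have h4 : 0 < KK n p := div_pos h1 h2
  have he : 0 ≤ 1 - 2 / p := by
    rw [sub_nonneg, div_le_one hp0]; exact hp
  rw [← Real.log_le_log_iff (by positivity) h4, Real.log_rpow (by positivity)]
  refine le_trans ?_ (log_KK n hp)
  refine mul_le_mul_of_nonneg_left ?_ he
  obtain ⟨m, rfl⟩ := Nat.exists_eq_succ_of_ne_zero (show n ≠ 0 by omega)
  have h5 := SS_ge m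
  have h6 : 0 ≤ 1 / (20 * ((m : ℝ) + 1) ^ 2) := by positivity
  rw [Real.log_mul (by norm_num) hn0.ne']
  push_cast at *
  change log 7 + log ((m : ℝ) + 1) ≤ SS (m + 1)
  linarith

/-- `(7 n) ^ (1 - 2/p)` is at most `n ^ (1 - 2/p) (p - 1)` -/
theorem seven_le' {n : ℕ} {p : ℝ} (hp : 2 ≤ p) :
    (7 * (n : ℝ)) ^ (1 - 2 / p) ≤ (n : ℝ) ^ (1 - 2 / p) * (p - 1) := by
  have hp0 : 0 < p := by linarith
  have he : 0 ≤ 1 - 2 / p := by
    rw [sub_nonneg, div_le_one hp0]; exact hp
  rw [Real.mul_rpow (by norm_num) (Nat.cast_nonneg n), mul_comm]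
  refine mul_le_mul_of_nonneg_left ?_ (by positivity)
  rw [← Real.log_le_log_iff (by positivity) (by linarith), Real.log_rpow (by norm_num)]
  refine le_trans ?_ (log_ge hp)
  have := log_seven
  nlinarith

end Pool.Agent.Q299.BA
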