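import Pool.Agent.Q299.BA.Fin
import Pool.Agent.Q299.BA.Poch

set_option autoImplicit false

/-!
# From discs to the plane
-/

namespace Pool.Agent.Q299.BA

open MeasureTheory Set Filter Topology Metric Pool.Agent.TH55.PowA
open scoped SchwartzMap FourierTransform ENNReal

lemma lint_ball {F : ℂ → ℂ} (hF : Continuous F) {p : ℝ} (hp : 0 < p) (R : ℝ) :
    ∫⁻ z in ball (0 : ℂ) R, ‖F z‖ₑ ^ p = ENNReal.ofReal (∫ z in ball (0 : ℂ) R, ‖F z‖ ^ p) := by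
  have hc : Continuous fun z => ‖F z‖ ^ p := hF.norm.rpow_const fun z => Or.inr hp.le
  have hi : IntegrableOn (fun z => ‖F z‖ ^ p) (ball (0 : ℂ) R) volume :=
    (hc.continuousOn.integrableOn_compact (isCompact_closedBall (0 : ℂ) R)).mono_set ball_subset_closedBall
  rw [ofReal_integral_eq_lintegral_ofReal hi (Eventually.of_forall fun z => Real.rpow_nonneg (norm_nonneg _) _)]
  refine lintegral_congr fun z => ?_
  rw [← ENNReal.ofReal_rpow_of_nonneg (norm_nonneg _) hp.le, ofReal_norm]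

theorem glob {F f : ℂ → ℂ} (hF : Continuous F) (hf : Continuous f) {p C : ℝ} (hp : 0 < p) (hC : 0 ≤ C)
    (h : ∀ R : ℝ, 0 ≤ R → ∫ z in ball (0 : ℂ) R, ‖F z‖ ^ p ≤ C ^ p * ∫ z in ball (0 : ℂ) R, ‖f z‖ ^ p) :
    eLpNorm F (ENNReal.ofReal p) volume ≤ ENNReal.ofReal C * eLpNorm f (ENNReal.ofReal p) volume := by
  have hp0 : ENNReal.ofReal p ≠ 0 := (ENNReal.ofReal_pos.2 hp).ne'
  rw [eLpNorm_eq_lintegral_rpow_enorm_toReal hp0 ENNReal.ofReal_ne_top,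
    eLpNorm_eq_lintegral_rpow_enorm_toReal hp0 ENNReal.ofReal_ne_top, ENNReal.toReal_ofReal hp.le]
  have h1 : ∫⁻ z, ‖F z‖ₑ ^ p ≤ ENNReal.ofReal (C ^ p) * ∫⁻ z, ‖f z‖ₑ ^ p := by
    have hcov : AECover (volume : Measure ℂ) atTop (fun n : ℕ => ball (0 : ℂ) (n : ℝ)) :=
      aecover_ball tendsto_natCast_atTop_atTop
    have ht := hcov.lintegral_tendsto_of_countably_generated
      (f := fun z => ‖F z‖ₑ ^ p) (by fun_prop)
    refine le_of_tendsto' ht fun n => ?_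
    rw [lint_ball hF hp]
    calc ENNReal.ofReal (∫ z in ball (0 : ℂ) (n : ℝ), ‖F z‖ ^ p)
        ≤ ENNReal.ofReal (C ^ p * ∫ z in ball (0 : ℂ) (n : ℝ), ‖f z‖ ^ p) :=
          ENNReal.ofReal_le_ofReal (h n (Nat.cast_nonneg n))
      _ = ENNReal.ofReal (C ^ p) * ENNReal.ofReal (∫ z in ball (0 : ℂ) (n : ℝ), ‖f z‖ ^ p) :=
          ENNReal.ofReal_mul (Real.rpow_nonneg hC _)
      _ = ENNReal.ofReal (C ^ p) * ∫⁻ z in ball (0 : ℂ) (n : ℝ), ‖f z‖ₑ ^ p := by rw [lint_ball hf hp]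
      _ ≤ _ := by
          gcongr
          exact Measure.restrict_le_self
  calc (∫⁻ z, ‖F z‖ₑ ^ p) ^ (1 / p) ≤ (ENNReal.ofReal (C ^ p) * ∫⁻ z, ‖f z‖ₑ ^ p) ^ (1 / p) := by
        gcongr
    _ = ENNReal.ofReal C * (∫⁻ z, ‖f z‖ₑ ^ p) ^ (1 / p) := by
        rw [ENNReal.mul_rpow_of_nonneg _ _ (by positivity), ← ENNReal.ofReal_rpow_of_nonneg hC hp.le,
          ← ENNReal.rpow_mul, mul_one_div_cancel hp.ne', ENNReal.rpow_one]

end Pool.Agent.Q299.BA
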