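import Pool.Agent.Q299.BA.Four

set_option autoImplicit false

/-!
# Angular modes
-/

namespace Pool.Agent.Q299.BA

open MeasureTheory Set Filter Topology Pool.Agent.TH55.PowA
open scoped SchwartzMap FourierTransform

/-- functions of the angular mode `k` -/
def Md (k : ℤ) (f : ℂ → ℂ) : Prop := ∀ a z : ℂ, ‖a‖ = 1 → f (a * z) = a ^ k * f z

lemma sm_rot {a : ℂ} (ha : ‖a‖ = 1) (x ξ : ℂ) : sm (a * x) (a * ξ) = sm x ξ := by
  have h : a.re ^ 2 + a.im ^ 2 = 1 := by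
    have h1 := Complex.normSq_eq_norm_sq a
    rw [ha, Complex.normSq_apply] at h1
    linarith
  simp only [sm, Complex.mul_re, Complex.mul_im]
  linear_combination (x.re * ξ.re + x.im * ξ.im) * h

lemma Ft_mode {k : ℤ} {f : 𝓢(ℂ, ℂ)} (hf : Md k f) : Md k (Ft f) := by
  intro a ξ ha
  unfold Ft
  rw [← int_rot ha, ← integral_const_mul]
  refine integral_congr_ae (Eventually.of_forall fun x => ?_)
  simp only [sm_rot ha, hf a x ha]
  ring

lemma conj_unit {a : ℂ} (ha : ‖a‖ = 1) : starRingEnd ℂ a = a⁻¹ := by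
  rw [Complex.inv_def, Complex.normSq_eq_norm_sq, ha]
  simp

lemma bb_rot {a : ℂ} (ha : ‖a‖ = 1) (j : ℕ) (ξ : ℂ) : bb j (a * ξ) = a ^ (-(2 * j : ℤ)) * bb j ξ := by
  have ha0 : a ≠ 0 := by
    intro h
    rw [h] at ha
    simp at ha
  unfold bb
  rw [map_mul, conj_unit ha, mul_div_mul_comm, mul_pow]
  congr 1
  rw [zpow_neg, zpow_mul, div_eq_mul_inv, ← pow_two, ← zpow_natCast, inv_pow, inv_zpow]
  norm_cast

lemma T_mode {k : ℤ} {f : 𝓢(ℂ, ℂ)} (hf : Md k f) (j : ℕ) : Md (k - 2 * j) (T (bb j) f) := by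
  intro a z ha
  have ha0 : a ≠ 0 := by
    intro h
    rw [h] at ha
    simp at ha
  unfold T
  rw [← int_rot ha, ← integral_const_mul]
  refine integral_congr_ae (Eventually.of_forall fun ξ => ?_)
  simp only [sm_rot ha, bb_rot ha, Ft_mode hf a ξ ha]
  rw [sub_eq_add_neg, zpow_add₀ ha0]
  ring

/-- the radial parts -/
noncomputable def gg (f : 𝓢(ℂ, ℂ)) (j : ℕ) (r : ℝ) : ℂ := T (bb j) f (r : ℂ)

/-- their derivatives -/
noncomputable def gg' (f : 𝓢(ℂ, ℂ)) (j : ℕ) (r : ℝ) : ℂ := dT (bb j) f (r : ℂ) 1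

lemma gg_cont (f : 𝓢(ℂ, ℂ)) (j : ℕ) : Continuous (gg f j) :=
  (T_cont (adm_bb j) f).comp Complex.continuous_ofReal

lemma gg_der (f : 𝓢(ℂ, ℂ)) (j : ℕ) (r : ℝ) : HasDerivAt (gg f j) (gg' f j r) r := by
  have h1 : HasDerivAt (fun r : ℝ => (r : ℂ)) 1 r := Complex.ofRealCLM.hasDerivAt
  exact (T_fderiv (adm_bb j) f (r : ℂ)).comp_hasDerivAt r h1

lemma ang_der {k : ℤ} {f : 𝓢(ℂ, ℂ)} (hf : Md k f) (j : ℕ) (r : ℝ) :
    (r : ℂ) * dT (bb j) f (r : ℂ) Complex.I = ((k - 2 * j : ℤ) : ℂ) * Complex.I * gg f j r := by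
  have h0 : HasDerivAt (fun θ : ℝ => (θ : ℂ)) 1 (0 : ℝ) := Complex.ofRealCLM.hasDerivAt
  have h1 : HasDerivAt (fun θ : ℝ => Complex.exp ((θ : ℂ) * Complex.I) * (r : ℂ)) (Complex.I * r) (0 : ℝ) := by
    have e1 := ((h0.mul_const Complex.I).cexp).mul_const (r : ℂ)
    refine e1.congr_deriv ?_
    simp
  have h2 : HasDerivAt (fun θ : ℝ => T (bb j) f (Complex.exp ((θ : ℂ) * Complex.I) * (r : ℂ)))
      (dT (bb j) f (r : ℂ) (Complex.I * r)) (0 : ℝ) := by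
    have e1 : HasFDerivAt (T (bb j) f) (dT (bb j) f (r : ℂ))
        (Complex.exp (((0 : ℝ) : ℂ) * Complex.I) * (r : ℂ)) := by
      have e2 : Complex.exp (((0 : ℝ) : ℂ) * Complex.I) * (r : ℂ) = (r : ℂ) := by simp
      rw [e2]
      exact T_fderiv (adm_bb j) f (r : ℂ)
    exact e1.comp_hasDerivAt (0 : ℝ) h1
  have h3 : HasDerivAt (fun θ : ℝ => Complex.exp (((k - 2 * j : ℤ) : ℂ) * ((θ : ℂ) * Complex.I)) * gg f j r)
      (((k - 2 * j : ℤ) : ℂ) * Complex.I * gg f j r) (0 : ℝ) := by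
    have e1 := (((h0.mul_const Complex.I).const_mul ((k - 2 * j : ℤ) : ℂ)).cexp).mul_const (gg f j r)
    refine e1.congr_deriv ?_
    simp
  have h4 : (fun θ : ℝ => T (bb j) f (Complex.exp ((θ : ℂ) * Complex.I) * (r : ℂ))) =
      fun θ : ℝ => Complex.exp (((k - 2 * j : ℤ) : ℂ) * ((θ : ℂ) * Complex.I)) * gg f j r := by
    funext θ
    rw [T_mode hf j _ _ (Complex.norm_exp_ofReal_mul_I θ), Complex.exp_int_mul]
    rfl
  rw [h4] at h2
  have h5 := h2.unique h3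
  rw [← h5]
  have h6 : Complex.I * (r : ℂ) = r • Complex.I := by
    rw [Complex.real_smul, mul_comm]
  rw [h6, map_smul, Complex.real_smul]

/-- **The chain of the powers.** -/
lemma ch {k : ℤ} {f : 𝓢(ℂ, ℂ)} (hf : Md k f) (n : ℕ) :
    Ch (-(k : ℝ)) n (gg f) (fun j r => gg' f j r - gg' f (j + 1) r) where
  cont := gg_cont f
  der j _ r _ := (gg_der f j r).fun_sub (gg_der f (j + 1) r)
  eq j _ r hr := by
    have h1 := dbar_eq j f (r : ℂ)
    have h2 := ang_der hf j r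
    have h3 := ang_der hf (j + 1) r
    have hI : Complex.I * Complex.I = -1 := Complex.I_mul_I
    simp only [Complex.real_smul, cc]
    push_cast at h2 h3 ⊢
    unfold gg' at *
    linear_combination (-(r : ℂ)) * h1 + Complex.I * h3 + Complex.I * h2 +
      ((k - 2 * (j + 1) : ℂ) * gg f (j + 1) r + (k - 2 * j : ℂ) * gg f j r) * hI

end Pool.Agent.Q299.BA
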