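import Mathlib

set_option autoImplicit false

/-!
# The scalar inequality behind the `L^p` bound
-/

namespace Pool.Agent.Q299.BA

open Real

theorem hasSum_tail (z : ℝ) : HasSum (fun n : ℕ => z ^ (n + 2) / ((n + 2).factorial : ℝ)) (exp z - 1 - z) := by
  have h : HasSum (fun n : ℕ => z ^ n / (n.factorial : ℝ)) (exp z) := by
    rw [Real.exp_eq_exp_ℝ]
    exact NormedSpace.expSeries_div_hasSum_exp z
  have h2 := (hasSum_nat_add_iff' 2).2 h
  have h3 : (∑ i ∈ Finset.range 2, z ^ i / (i.factorial : ℝ)) = 1 + z := by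
    simp [Finset.sum_range_succ]
  rw [h3] at h2
  rwa [sub_sub]

theorem f_mono {x y : ℝ} (hy : 0 ≤ y) (hxy : y ≤ x) :
    (exp y - 1 - y) * x ^ 2 ≤ (exp x - 1 - x) * y ^ 2 := by
  refine hasSum_le (fun n => ?_) ((hasSum_tail y).mul_right (x ^ 2)) ((hasSum_tail x).mul_right (y ^ 2))
  have h1 : y ^ n ≤ x ^ n := pow_le_pow_left₀ hy hxy n
  have h2 : (0 : ℝ) < ((n + 2).factorial : ℝ) := by positivity
  rw [div_mul_eq_mul_div, div_mul_eq_mul_div, div_le_div_iff_of_pos_right h2]
  calc y ^ (n + 2) * x ^ 2 = y ^ n * (x ^ 2 * y ^ 2) := by ring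
    _ ≤ x ^ n * (x ^ 2 * y ^ 2) := by gcongr
    _ = x ^ (n + 2) * y ^ 2 := by ring

theorem f_nonneg (x : ℝ) : 0 ≤ exp x - 1 - x := by
  have := Real.add_one_le_exp x
  linarith

/-- the logarithm is at most `368 s / 1000` -/
theorem log_le_c {s : ℝ} (hs : 0 < s) : log s ≤ 368 / 1000 * s := by
  have he : (2.7182818283 : ℝ) < exp 1 := Real.exp_one_gt_d9
  have hpos : 0 < exp 1 := exp_pos 1
  have h1 := Real.log_le_sub_one_of_pos (div_pos hs hpos)
  rw [Real.log_div hs.ne' hpos.ne', Real.log_exp] at h1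
  have h2 : log s ≤ s / exp 1 := by linarith
  refine h2.trans ?_
  rw [div_le_iff₀ hpos]
  nlinarith

section

variable {a t s : ℝ}

theorem s_facts (ha : 0 ≤ a) (ht : 1 ≤ t) (hs : s * (1 + a) = t + a) : 1 ≤ s ∧ s ≤ t ∧ t - s = a * (s - 1) := by
  have h1 : 1 ≤ s := by
    by_contra h
    push Not at h
    nlinarith
  refine ⟨h1, ?_, by linarith⟩
  nlinarith

theorem tlog (ht : 1 ≤ t) (ha : 0 ≤ a) (hs : s * (1 + a) = t + a) :
    t * log s + t - s ≤ t * log t := by
  obtain ⟨h1, h2, h3⟩ := s_facts ha ht hs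
  have hs0 : 0 < s := by linarith
  have ht0 : 0 < t := by linarith
  have h4 := Real.log_le_sub_one_of_pos (div_pos hs0 ht0)
  rw [Real.log_div hs0.ne' ht0.ne'] at h4
  have h5 : t * (log s - log t) ≤ t * (s / t - 1) := mul_le_mul_of_nonneg_left h4 ht0.le
  have h6 : t * (s / t - 1) = s - t := by field_simp
  rw [h6] at h5
  linarith

theorem tlog2 (ht : 1 ≤ t) (ha : 0 ≤ a) (hs : s * (1 + a) = t + a) :
    (t + a) * log s ≤ t * log t := by
  obtain ⟨h1, h2, h3⟩ := s_facts ha ht hs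
  have h4 := tlog ht ha hs
  have h5 := Real.log_le_sub_one_of_pos (show 0 < s by linarith)
  nlinarith

theorem h_nonneg {q : ℝ} (hq : 0 ≤ q) (ht : 1 ≤ t) (ha : 0 ≤ a) (hs : s * (1 + a) = t + a) :
    (t + a) ^ 2 * (s ^ q - 1 - q * log s) ≤ t ^ 2 * (t ^ q - 1 - q * log t) := by
  obtain ⟨h1, h2, h3⟩ := s_facts ha ht hs
  have hs0 : 0 < s := by linarith
  have ht0 : 0 < t := by linarith
  have hls : 0 ≤ log s := Real.log_nonneg h1
  have hlt : log s ≤ log t := Real.log_le_log hs0 h2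
  rw [Real.rpow_def_of_pos hs0, Real.rpow_def_of_pos ht0, mul_comm (log s) q, mul_comm (log t) q]
  set y := q * log s with hy
  set x := q * log t with hx
  have hy0 : 0 ≤ y := mul_nonneg hq hls
  have hyx : y ≤ x := mul_le_mul_of_nonneg_left hlt hq
  have h4 := f_mono hy0 hyx
  have h5 : (t + a) * y ≤ t * x := by
    have := mul_le_mul_of_nonneg_left (tlog2 ht ha hs) hq
    rw [hy, hx]; linarith
  have hta : 0 ≤ t + a := by linarith
  have h6 : ((t + a) * y) ^ 2 ≤ (t * x) ^ 2 := pow_le_pow_left₀ (mul_nonneg hta hy0) h5 2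
  rcases eq_or_lt_of_le hy0 with h0 | h0
  · rw [← h0, Real.exp_zero]
    have := f_nonneg x
    have h7 : 0 ≤ t ^ 2 * (exp x - 1 - x) := by positivity
    linarith
  · have hx0 : 0 < x := h0.trans_le hyx
    have h7 : 0 < y ^ 2 := by positivity
    refine le_of_mul_le_mul_right ?_ h7
    calc (t + a) ^ 2 * (exp y - 1 - y) * y ^ 2 = ((t + a) * y) ^ 2 * (exp y - 1 - y) := by ring
      _ ≤ (t * x) ^ 2 * (exp y - 1 - y) := mul_le_mul_of_nonneg_right h6 (f_nonneg y)
      _ = t ^ 2 * ((exp y - 1 - y) * x ^ 2) := by ring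
      _ ≤ t ^ 2 * ((exp x - 1 - x) * y ^ 2) := by gcongr
      _ = t ^ 2 * (exp x - 1 - x) * y ^ 2 := by ring

theorem G_nonneg (ht : 1 ≤ t) (ha : 0 ≤ a) (hs : s * (1 + a) = t + a) :
    0 ≤ t ^ 2 * log t - (t + a) ^ 2 * log s + t * a + (a ^ 2 + 1) / 2 := by
  obtain ⟨h1, h2, h3⟩ := s_facts ha ht hs
  have hs0 : 0 < s := by linarith
  have ht0 : 0 < t := by linarith
  have h4 : t * (t * log s + t - s) ≤ t * (t * log t) := mul_le_mul_of_nonneg_left (tlog ht ha hs) ht0.le
  have h5 := log_le_c hs0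
  have h6 : 0 ≤ 2 * t * a + a ^ 2 := by positivity
  have h7 := mul_le_mul_of_nonneg_left h5 h6
  have ht' : t = (1 + a) * s - a := by linarith
  have h8 : 0 ≤ (1 - 2 * (368 / 1000)) * (a * (1 + a) * s ^ 2 - a ^ 2 * s) + (a ^ 2 + 1) / 2
      - 368 / 1000 * a ^ 2 * s := by
    have h9 : 0 ≤ (1 - 2 * (368 / 1000 : ℝ)) * s ^ 2 - (1 - 368 / 1000) * s + 1 / 2 := by nlinarith [sq_nonneg (s - 1.2)]
    have h10 : 0 ≤ a * s ^ 2 := by positivity
    nlinarith [mul_nonneg (sq_nonneg a) h9]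
  have h11 : t * a * s = a * (1 + a) * s ^ 2 - a ^ 2 * s := by rw [ht']; ring
  have h12 : t * (t - s) = t * a * s - t * a := by rw [h3]; ring
  nlinarith

/-- the key inequality for `t ≥ 1` -/
theorem key {q : ℝ} (hq : 0 ≤ q) (ht : 1 ≤ t) (ha : 0 ≤ a) (hs : s * (1 + a) = t + a) :
    (t + a) ^ 2 * s ^ q ≤ t ^ 2 * t ^ q + q / 2 + (1 + q / 2) * (2 * t * a + a ^ 2) := by
  have h1 := h_nonneg hq ht ha hs
  have h2 := mul_nonneg hq (G_nonneg ht ha hs)
  nlinarith

end

/-- **The scalar inequality.** -/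
theorem scal {p a x y d : ℝ} (hp : 2 ≤ p) (ha : 0 ≤ a) (hx : 0 ≤ x) (hy : 0 ≤ y) (hd : 0 ≤ d)
    (h : y ≤ x + a * d) :
    y ^ p ≤ (1 + a) ^ (p - 2) * (x ^ p + (p - 2) / 2 * d ^ p + p / 2 * (d ^ (p - 2) * (y ^ 2 - x ^ 2))) := by
  set q := p - 2 with hq
  have hq0 : 0 ≤ q := by linarith
  have hpow : ∀ u : ℝ, 0 ≤ u → u ^ p = u ^ 2 * u ^ q := by
    intro u hu
    rcases eq_or_lt_of_le hu with h0 | h0
    · rw [← h0, Real.zero_rpow (by linarith)]; simp
    · rw [← Real.rpow_two, ← Real.rpow_add h0]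
      congr 1
      rw [hq]; ring
  have hb : 0 < 1 + a := by linarith
  have hbq : 0 < (1 + a) ^ q := Real.rpow_pos_of_pos hb q
  have hxp : x ^ p = x ^ 2 * x ^ q := hpow x hx
  have hyp : y ^ p = y ^ 2 * y ^ q := hpow y hy
  have hdp : d ^ p = d ^ 2 * d ^ q := hpow d hd
  rcases le_or_gt y ((1 + a) * d) with hyd | hyd
  · -- small `y`
    have h1 : y ^ q ≤ (1 + a) ^ q * d ^ q := by
      rw [← Real.mul_rpow hb.le hd]
      exact Real.rpow_le_rpow hy hyd hq0
    have h2 : y ^ p ≤ (1 + a) ^ q * (y ^ 2 * d ^ q) := by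
      rw [hyp]
      calc y ^ 2 * y ^ q ≤ y ^ 2 * ((1 + a) ^ q * d ^ q) := by gcongr
        _ = _ := by ring
    refine h2.trans ?_
    refine mul_le_mul_of_nonneg_left ?_ hbq.le
    -- Young
    have h3 : d ^ q * x ^ 2 ≤ 2 / p * x ^ p + q / p * d ^ p := by
      rcases eq_or_lt_of_le hq0 with h0 | h0
      · have hp2 : p = 2 := by linarith
        rw [← h0, hp2]
        simp
      · have h4 := Real.young_inequality_of_nonneg (sq_nonneg x) (Real.rpow_nonneg hd q)
          (p := p / 2) (q := p / q) (by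
            rw [Real.holderConjugate_iff]
            refine ⟨by linarith, ?_⟩
            rw [inv_div, inv_div, ← add_div]
            rw [div_eq_one_iff_eq (by linarith)]
            linarith)
        have h5 : (x ^ 2) ^ (p / 2) = x ^ p := by
          rw [← Real.rpow_two, ← Real.rpow_mul hx]
          congr 1
          ring
        have h6 : (d ^ q) ^ (p / q) = d ^ p := by
          rw [← Real.rpow_mul hd]
          congr 1
          field_simp
        rw [h5, h6] at h4
        calc d ^ q * x ^ 2 = x ^ 2 * d ^ q := mul_comm _ _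
          _ ≤ _ := h4
          _ = _ := by field_simp
    have hp0 : 0 < p := by linarith
    have h4 : p / 2 * (d ^ q * x ^ 2) ≤ x ^ p + q / 2 * d ^ p := by
      have h5 := mul_le_mul_of_nonneg_left h3 (show 0 ≤ p / 2 by linarith)
      have h6 : p / 2 * (2 / p * x ^ p + q / p * d ^ p) = x ^ p + q / 2 * d ^ p := by
        field_simp
      linarith
    have h5 : 0 ≤ (p / 2 - 1) * (y ^ 2 * d ^ q) := mul_nonneg (by linarith) (by positivity)
    nlinarith
  · -- large `y`
    have hxd : d < x := by nlinarith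
    have hx0 : 0 < x := hd.trans_lt hxd
    rcases eq_or_lt_of_le hd with h0 | h0
    · -- `d = 0`
      have hyx : y ≤ x := by rw [← h0] at h; linarith
      have h1 : y ^ p ≤ x ^ p := Real.rpow_le_rpow hy hyx (by linarith)
      have h2 : (1 : ℝ) ≤ (1 + a) ^ q := Real.one_le_rpow (by linarith) hq0
      rw [← h0, Real.zero_rpow (show p ≠ 0 by linarith)]
      rcases eq_or_lt_of_le hq0 with h3 | h3
      · have hp2 : p = 2 := by linarith
        rw [← h3, hp2]
        norm_num
      · rw [Real.zero_rpow h3.ne']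
        have h4 : 0 ≤ x ^ p := Real.rpow_nonneg hx p
        nlinarith
    · have hy1 : (1 + a) * d ≤ x + a * d := by nlinarith
      -- monotonicity in `y`
      set Y := x + a * d with hY
      have hYpos : 0 < Y := by nlinarith [mul_nonneg ha hd]
      have hy0 : 0 < y := lt_of_le_of_lt (by positivity) hyd
      have h1 : y ^ p - (1 + a) ^ q * (p / 2) * d ^ q * y ^ 2 ≤
          Y ^ p - (1 + a) ^ q * (p / 2) * d ^ q * Y ^ 2 := by
        have hmono : MonotoneOn (fun u : ℝ => u ^ p - (1 + a) ^ q * (p / 2) * d ^ q * u ^ 2)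
            (Set.Ici ((1 + a) * d)) := by
          have hD : ∀ u : ℝ, HasDerivAt (fun u : ℝ => u ^ p - (1 + a) ^ q * (p / 2) * d ^ q * u ^ 2)
              (p * u ^ (p - 1) - (1 + a) ^ q * (p / 2) * d ^ q * (2 * u)) u := by
            intro u
            have e1 := Real.hasDerivAt_rpow_const (x := u) (p := p) (Or.inr (by linarith))
            have e2 := ((hasDerivAt_pow 2 u).const_mul ((1 + a) ^ q * (p / 2) * d ^ q))
            refine (e1.fun_sub e2).congr_deriv ?_
            norm_num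
          refine monotoneOn_of_deriv_nonneg (convex_Ici _) ?_ ?_ ?_
          · exact fun u _ => (hD u).continuousAt.continuousWithinAt
          · exact fun u _ => (hD u).differentiableAt.differentiableWithinAt
          · intro u hu
            rw [interior_Ici] at hu
            have hu' : (1 + a) * d < u := hu
            have hu0 : 0 < u := lt_of_le_of_lt (by positivity) hu'
            rw [(hD u).deriv]
            have e1 : u ^ (p - 1) = u * u ^ q := by
              rw [show p - 1 = 1 + q by rw [hq]; ring, Real.rpow_add hu0, Real.rpow_one]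
            have e2 : (1 + a) ^ q * d ^ q ≤ u ^ q := by
              rw [← Real.mul_rpow hb.le hd]
              exact Real.rpow_le_rpow (by positivity) hu'.le hq0
            rw [e1]
            have e3 : 0 ≤ p * u * (u ^ q - (1 + a) ^ q * d ^ q) :=
              mul_nonneg (by nlinarith) (by linarith)
            nlinarith
        exact hmono (Set.mem_Ici.2 hyd.le) (Set.mem_Ici.2 hy1) h
      -- the key inequality at `t = x / d`
      set t := x / d with ht
      have ht1 : 1 ≤ t := by rw [ht, le_div_iff₀ h0]; linarith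
      set s := (t + a) / (1 + a) with hs
      have hs1 : s * (1 + a) = t + a := by rw [hs]; field_simp
      have hk := key hq0 ht1 ha hs1
      have hxt : x = t * d := by rw [ht]; field_simp
      have hYt : Y = (t + a) * d := by rw [hY, hxt]; ring
      have hta : 0 ≤ t + a := by linarith
      have ht0 : 0 ≤ t := by linarith
      have hs0 : 0 ≤ s := (zero_le_one).trans (s_facts ha ht1 hs1).1
      have e1 : Y ^ p = (1 + a) ^ q * (d ^ 2 * d ^ q) * ((t + a) ^ 2 * s ^ q) := by
        rw [hpow Y hYpos.le, hYt, Real.mul_rpow hta hd, ← hs1, Real.mul_rpow hs0 hb.le]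
        ring
      have e2 : x ^ p = (d ^ 2 * d ^ q) * (t ^ 2 * t ^ q) := by
        rw [hxp, hxt, Real.mul_rpow ht0 hd]
        ring
      have e3 : 0 ≤ (1 + a) ^ q * (d ^ 2 * d ^ q) := by positivity
      have e4 := mul_le_mul_of_nonneg_left hk e3
      have e5 : (1 + a) ^ q * (x ^ p + q / 2 * d ^ p + p / 2 * (d ^ q * (y ^ 2 - x ^ 2))) - y ^ p =
          (1 + a) ^ q * (x ^ p + q / 2 * d ^ p + p / 2 * (d ^ q * (Y ^ 2 - x ^ 2))) - Y ^ p +
          ((Y ^ p - (1 + a) ^ q * (p / 2) * d ^ q * Y ^ 2) -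
            (y ^ p - (1 + a) ^ q * (p / 2) * d ^ q * y ^ 2)) := by ring
      have e6 : 0 ≤ (1 + a) ^ q * (x ^ p + q / 2 * d ^ p + p / 2 * (d ^ q * (Y ^ 2 - x ^ 2))) - Y ^ p := by
        have e7 : (1 + a) ^ q * (x ^ p + q / 2 * d ^ p + p / 2 * (d ^ q * (Y ^ 2 - x ^ 2))) =
            (1 + a) ^ q * (d ^ 2 * d ^ q) * (t ^ 2 * t ^ q + q / 2 + (1 + q / 2) * (2 * t * a + a ^ 2)) := by
          rw [e2, hdp, hYt, hxt, show p = q + 2 by rw [hq]; ring]
          ring
        rw [e7, e1]
        linarith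
      linarith

end Pool.Agent.Q299.BA
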